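import Mathlib

/-! Real dilates, part A: convolution with a discrete measure on the circle and on the line (Plancherel). -/

set_option autoImplicit false

namespace Pool.Agent.H623.RD

open MeasureTheory AddCircle Finset

section circle
variable {P : ℝ} [hP : Fact (0 < P)]

theorem fc_shift (Γ : AddCircle P → ℂ) (u : AddCircle P) (k : ℤ) :
    fourierCoeff (fun x => Γ (x + u)) k = fourier k u * fourierCoeff Γ k := by
  unfold fourierCoeff
  have h := integral_add_right_eq_self (μ := (haarAddCircle : Measure (AddCircle P)))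
    (fun t => fourier (-k) (t - u) • Γ t) u
  simp only [add_sub_cancel_right] at h
  rw [h, ← integral_const_mul]
  congr 1
  ext t
  have e : (fourier (-k) (t - u) : ℂ) = fourier k u * fourier (-k) t := by
    simp only [fourier_apply, smul_sub, neg_smul, sub_neg_eq_add, toCircle_add, Circle.coe_mul]
    ring
  rw [e, smul_eq_mul, smul_eq_mul, mul_assoc]

theorem parseval {Z : AddCircle P → ℂ} (hZ : MemLp Z 2 haarAddCircle) :
    HasSum (fun k => ‖fourierCoeff Z k‖ ^ 2) (∫ t, ‖Z t‖ ^ 2 ∂haarAddCircle) := by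
  have h := hasSum_sq_fourierCoeff hZ.toLp
  have e1 : fourierCoeff (hZ.toLp : AddCircle P → ℂ) = fourierCoeff Z := fourierCoeff_congr_ae hZ.coeFn_toLp
  have e2 : ∫ t, ‖(hZ.toLp : AddCircle P → ℂ) t‖ ^ 2 ∂haarAddCircle = ∫ t, ‖Z t‖ ^ 2 ∂haarAddCircle := by
    apply integral_congr_ae
    filter_upwards [hZ.coeFn_toLp] with t ht
    rw [ht]
  rw [e1] at h
  rw [← e2]
  exact h

theorem memLp_shift {Γ : AddCircle P → ℂ} (hΓ : MemLp Γ 2 haarAddCircle) (u : AddCircle P) :
    MemLp (fun x => Γ (x + u)) 2 haarAddCircle :=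
  hΓ.comp_measurePreserving (measurePreserving_add_right haarAddCircle u)

theorem conv_bound {ι : Type*} (I : Finset ι) (f : ι → ℂ) (u : ι → AddCircle P) {Γ : AddCircle P → ℂ}
    (hΓ : MemLp Γ 2 haarAddCircle) {M : ℝ} (hM : ∀ k : ℤ, ‖∑ i ∈ I, f i * fourier k (u i)‖ ≤ M) :
    ∫ t, ‖∑ i ∈ I, f i * Γ (t + u i)‖ ^ 2 ∂haarAddCircle ≤ M ^ 2 * ∫ t, ‖Γ t‖ ^ 2 ∂haarAddCircle := by
  have hM0 : 0 ≤ M := (norm_nonneg _).trans (hM 0)
  have hsh : ∀ i ∈ I, MemLp (fun x => f i * Γ (x + u i)) 2 (haarAddCircle : Measure (AddCircle P)) := fun i _ =>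
    (memLp_shift hΓ (u i)).const_mul (f i)
  have hZ : MemLp (fun t => ∑ i ∈ I, f i * Γ (t + u i)) 2 (haarAddCircle : Measure (AddCircle P)) :=
    memLp_finsetSum I hsh
  have hint : ∀ i ∈ I, Integrable (fun x => f i * Γ (x + u i)) (haarAddCircle : Measure (AddCircle P)) := fun i hi =>
    (hsh i hi).integrable (by norm_num)
  have hcoef : ∀ k : ℤ, fourierCoeff (fun t => ∑ i ∈ I, f i * Γ (t + u i)) k
      = (∑ i ∈ I, f i * fourier k (u i)) * fourierCoeff Γ k := by
    intro k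
    have e : (fun t => ∑ i ∈ I, f i * Γ (t + u i)) = ∑ i ∈ I, fun t => f i * Γ (t + u i) := by
      ext t; rw [Finset.sum_apply]
    rw [e, fourierCoeff.sum I _ hint, Finset.sum_apply, Finset.sum_mul]
    apply Finset.sum_congr rfl
    intro i _
    rw [fourierCoeff.const_mul, fc_shift, mul_assoc]
  have h1 := parseval hZ
  have h2 := (parseval hΓ).mul_left (M ^ 2)
  refine hasSum_le (fun k => ?_) h1 h2
  rw [hcoef, norm_mul, mul_pow]
  exact mul_le_mul_of_nonneg_right (pow_le_pow_left₀ (norm_nonneg _) (hM k) 2) (by positivity)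

end circle

/-- PLANCHEREL on the line: convolution of a bounded function with a discrete measure -/
theorem conv_line {ι : Type*} (I : Finset ι) (f : ι → ℂ) (u : ι → ℝ) {g : ℝ → ℂ} (hg : Measurable g)
    (hg1 : ∀ x, ‖g x‖ ≤ 1) {V P a : ℝ} (hV : 0 ≤ V) (hP : 0 < P) (h2V : 2 * V ≤ P)
    (hu : ∀ i ∈ I, a + V ≤ u i ∧ u i + V ≤ a + P) {M : ℝ}
    (hM : ∀ t : ℝ, ‖∑ i ∈ I, f i * Complex.exp ((t * u i : ℝ) * Complex.I)‖ ≤ M) :
    ∫ v in (-V)..V, ‖∑ i ∈ I, f i * g (v + u i)‖ ^ 2 ≤ P * M ^ 2 := by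
  haveI : Fact (0 < P) := ⟨hP⟩
  set Γ : AddCircle P → ℂ := AddCircle.liftIoc P a g with hΓ
  have hgL : MemLp g 2 (volume.restrict (Set.Ioc a (a + P))) := by
    haveI : IsFiniteMeasure (volume.restrict (Set.Ioc a (a + P))) := ⟨by
      rw [Measure.restrict_apply MeasurableSet.univ, Set.univ_inter, Real.volume_Ioc]
      exact ENNReal.ofReal_lt_top⟩
    exact MemLp.of_bound hg.aestronglyMeasurable 1 (Filter.Eventually.of_forall hg1)
  have hΓL : MemLp Γ 2 haarAddCircle := hgL.memLp_liftIoc.haarAddCircle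
  have hΓ1 : ∀ x, ‖Γ x‖ ≤ 1 := by
    intro x
    rw [hΓ]
    unfold AddCircle.liftIoc
    exact hg1 _
  have h1 := conv_bound I f (fun i => ((u i : ℝ) : AddCircle P)) hΓL (M := M) (by
    intro k
    have e : ∀ i ∈ I, f i * fourier k ((u i : ℝ) : AddCircle P)
        = f i * Complex.exp (((2 * Real.pi * k / P) * u i : ℝ) * Complex.I) := by
      intro i _
      rw [fourier_coe_apply]
      congr 2
      push_cast
      ring
    rw [Finset.sum_congr rfl e]
    exact hM _)
  have h2 : ∫ t, ‖Γ t‖ ^ 2 ∂(haarAddCircle : Measure (AddCircle P)) ≤ 1 := by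
    calc ∫ t, ‖Γ t‖ ^ 2 ∂(haarAddCircle : Measure (AddCircle P)) ≤ ∫ _t : AddCircle P, (1 : ℝ) ∂haarAddCircle := by
          apply integral_mono_of_nonneg (Filter.Eventually.of_forall fun t => by positivity) (integrable_const _)
          exact Filter.Eventually.of_forall fun t => pow_le_one₀ (norm_nonneg _) (hΓ1 t)
      _ = 1 := by simp
  have hM0 : 0 ≤ M := (norm_nonneg _).trans (hM 0)
  have h3 : ∫ t, ‖∑ i ∈ I, f i * Γ (t + ((u i : ℝ) : AddCircle P))‖ ^ 2 ∂haarAddCircle ≤ M ^ 2 := by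
    refine h1.trans ?_
    have := mul_le_mul_of_nonneg_left h2 (sq_nonneg M)
    rwa [mul_one] at this
  rw [integral_haarAddCircle, smul_eq_mul, ← AddCircle.intervalIntegral_preimage P (-V)] at h3
  have h4 : ∫ v in (-V)..(-V + P), ‖∑ i ∈ I, f i * Γ ((v : AddCircle P) + ((u i : ℝ) : AddCircle P))‖ ^ 2 ≤ P * M ^ 2 := by
    rw [inv_mul_le_iff₀ hP] at h3
    exact h3
  refine le_trans ?_ h4
  have hZmeas : MemLp (fun t => ∑ i ∈ I, f i * Γ (t + ((u i : ℝ) : AddCircle P))) 2 (haarAddCircle : Measure (AddCircle P)) :=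
    memLp_finsetSum I fun i _ => (memLp_shift hΓL (u i : AddCircle P)).const_mul (f i)
  -- integrability on the line
  have hint : IntervalIntegrable (fun v : ℝ => ‖∑ i ∈ I, f i * Γ ((v : AddCircle P) + ((u i : ℝ) : AddCircle P))‖ ^ 2)
      volume (-V) (-V + P) := by
    rw [intervalIntegrable_iff_integrableOn_Ioc_of_le (by linarith)]
    have h5 : Integrable (fun t : AddCircle P => ‖∑ i ∈ I, f i * Γ (t + ((u i : ℝ) : AddCircle P))‖ ^ 2) volume := by
      have h6 := hZmeas.integrable_norm_pow (by norm_num)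
      rw [AddCircle.volume_eq_smul_haarAddCircle]
      exact h6.smul_measure ENNReal.ofReal_ne_top
    exact (AddCircle.measurePreserving_mk P (-V)).integrable_comp_of_integrable h5
  rw [← intervalIntegral.integral_add_adjacent_intervals (b := V) (c := -V + P)
    (hint.mono_set (by rw [Set.uIcc_of_le (by linarith), Set.uIcc_of_le (by linarith)]; exact Set.Icc_subset_Icc le_rfl (by linarith)))
    (hint.mono_set (by rw [Set.uIcc_of_le (by linarith), Set.uIcc_of_le (by linarith)]; exact Set.Icc_subset_Icc (by linarith) le_rfl))]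
  have h7 : 0 ≤ ∫ v in V..(-V + P), ‖∑ i ∈ I, f i * Γ ((v : AddCircle P) + ((u i : ℝ) : AddCircle P))‖ ^ 2 :=
    intervalIntegral.integral_nonneg (by linarith) fun v _ => by positivity
  have h8 : ∫ v in (-V)..V, ‖∑ i ∈ I, f i * g (v + u i)‖ ^ 2 =
      ∫ v in (-V)..V, ‖∑ i ∈ I, f i * Γ ((v : AddCircle P) + ((u i : ℝ) : AddCircle P))‖ ^ 2 := by
    apply intervalIntegral.integral_congr_ae
    refine Filter.Eventually.of_forall fun v hv => ?_
    rw [Set.uIoc_of_le (by linarith)] at hv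
    congr 2
    apply Finset.sum_congr rfl
    intro i hi
    congr 1
    rw [hΓ, ← AddCircle.coe_add, AddCircle.liftIoc_coe_apply]
    obtain ⟨h9, h10⟩ := hu i hi
    exact ⟨by linarith [hv.1], by linarith [hv.2]⟩
  rw [h8]
  linarith

end Pool.Agent.H623.RD
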