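import Pool.Agent.H623.RD.A
import Pool.Graph.R_seed8.W41.MU23

/-! Real dilates, part B: the invariant sets against arbitrary bounded functions of the dilates. -/

set_option autoImplicit false

namespace Pool.Agent.H623.RD

open MeasureTheory Finset
open Pool.Agent.H499R2.ND (Inv HD)
open Pool.Agent.W41 Pool.Agent.W41.FU Pool.Agent.W41.MU

/-- bounded measurable functions are integrable on intervals -/
theorem ii_of_bdd {K : ℝ → ℝ} (hK : Measurable K) {B : ℝ} (h : ∀ x, |K x| ≤ B) (a b : ℝ) :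
    IntervalIntegrable K volume a b := by
  have h1 : IntervalIntegrable (fun _ : ℝ => B) volume a b := intervalIntegrable_const
  exact h1.mono_fun' hK.aestronglyMeasurable (Filter.Eventually.of_forall fun x => by
    simpa [Real.norm_eq_abs] using h x)

/-- `h n * n ^ (i t)` is multiplicative -/
theorem mulB_twist {h : ℕ → ℂ} (hh : MulB h) (t : ℝ) :
    MulB (fun n => h n * Complex.exp ((t * Real.log n : ℝ) * Complex.I)) := by
  refine ⟨fun n => ?_, fun m n hmn => ?_⟩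
  · rw [norm_mul, Complex.norm_exp_ofReal_mul_I, mul_one]; exact hh.1 n
  · show h (m * n) * Complex.exp ((t * Real.log ((m * n : ℕ) : ℝ) : ℝ) * Complex.I)
      = h m * Complex.exp ((t * Real.log m : ℝ) * Complex.I) * (h n * Complex.exp ((t * Real.log n : ℝ) * Complex.I))
    rw [hh.2 m n hmn]
    rcases Nat.eq_zero_or_pos m with rfl | hm
    · have : n = 1 := by simpa using hmn
      subst this
      simp
    rcases Nat.eq_zero_or_pos n with rfl | hn
    · have : m = 1 := by simpa using hmn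
      subst this
      simp
    have e : Real.log ((m * n : ℕ) : ℝ) = Real.log m + Real.log n := by
      push_cast
      exact Real.log_mul (by exact_mod_cast hm.ne') (by exact_mod_cast hn.ne')
    rw [e, mul_add]
    push_cast
    rw [add_mul, Complex.exp_add]
    ring

theorem meas_dil {G : ℝ → ℂ} (hG : Measurable G) {ι : Type*} (I : Finset ι) (F : ι → ℂ) (c : ι → ℝ) :
    Measurable (fun v : ℝ => ‖∑ i ∈ I, F i * G (Real.exp v * c i)‖ ^ 2) := by
  apply Measurable.pow_const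
  apply Measurable.norm
  apply Finset.measurable_sum
  intro i _
  exact (hG.comp (Real.measurable_exp.mul_const _)).const_mul _

theorem dil_bdd {G : ℝ → ℂ} (hG : ∀ x, ‖G x‖ ≤ 1) {ι : Type*} (I : Finset ι) {F : ι → ℂ} (hF : ∀ i, ‖F i‖ ≤ 1)
    (c : ι → ℝ) (v : ℝ) : ‖∑ i ∈ I, F i * G (v * c i)‖ ^ 2 ≤ (I.card : ℝ) ^ 2 := by
  apply pow_le_pow_left₀ (norm_nonneg _)
  refine (norm_sum_le _ _).trans ?_
  calc ∑ i ∈ I, ‖F i * G (v * c i)‖ ≤ ∑ _i ∈ I, (1 : ℝ) := by
        apply sum_le_sum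
        intro i _
        rw [norm_mul]
        exact mul_le_one₀ (hF i) (norm_nonneg _) (hG _)
    _ = I.card := by rw [sum_const, nsmul_eq_mul, mul_one]

/-- THE MAIN BOUND in logarithmic coordinates -/
theorem main_log {s : ℤ} (hs : s = 1 ∨ s = -1) {V ε : ℝ} (hV : 0 < V) (hε : 0 < ε) : ∃ N0 : ℕ, 1 ≤ N0 ∧
    ∀ N : ℕ, N0 ≤ N → ∀ S : Set ℤ, Inv 1 S → ∀ δ : ℝ, HD s S δ → ∀ γ : ℝ, ∀ h : ℕ → ℂ, MulB h →
    ∀ G : ℝ → ℂ, Measurable G → (∀ x, ‖G x‖ ≤ 1) →
      ∫ v in (-V)..V, ‖∑ n ∈ Icc 1 N, tw (bal s S δ) γ (n : ℤ) * h n * G (Real.exp v * n)‖ ^ 2 ≤ ε * N ^ 2 := by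
  -- parameters
  obtain ⟨L, hL2, hL⟩ : ∃ L : ℕ, 2 ≤ L ∧ 4 * V / (L : ℝ) ^ 2 ≤ ε / 2 := by
    obtain ⟨L0, hL0⟩ := exists_nat_ge (8 * V / ε)
    refine ⟨L0 + 2, by omega, ?_⟩
    rw [div_le_iff₀ (by positivity)]
    rw [div_le_iff₀ hε] at hL0
    push_cast
    have h0 : (0 : ℝ) ≤ L0 := Nat.cast_nonneg _
    nlinarith
  set P : ℝ := Real.log L + 2 * V with hP
  have hlogL : 0 < Real.log L := Real.log_pos (by exact_mod_cast (by omega : 1 < L))
  have hP0 : 0 < P := by rw [hP]; linarith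
  set ε' : ℝ := min 1 (Real.sqrt (ε / (16 * P))) with hε'
  have hε'0 : 0 < ε' := lt_min one_pos (Real.sqrt_pos.2 (by positivity))
  have hε'2 : 8 * P * ε' ^ 2 ≤ ε / 2 := by
    have h1 : ε' ^ 2 ≤ ε / (16 * P) := by
      calc ε' ^ 2 ≤ (Real.sqrt (ε / (16 * P))) ^ 2 := pow_le_pow_left₀ hε'0.le (min_le_right _ _) 2
        _ = ε / (16 * P) := Real.sq_sqrt (by positivity)
    rw [le_div_iff₀ (by positivity)] at h1
    linarith
  obtain ⟨N0, hN0, H⟩ := joint hs hε'0 (min_le_left _ _)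
  refine ⟨L * (N0 + 1), by nlinarith, fun N hN S hS δ hδ γ h hh G hG hG1 => ?_⟩
  obtain ⟨d0, d1⟩ := HD_mem hs hδ
  set N1 : ℕ := N / L with hN1
  have hLpos : 0 < L := by omega
  have hN1a : N0 ≤ N1 := by
    rw [hN1, Nat.le_div_iff_mul_le hLpos]
    nlinarith
  have hN1N : N1 ≤ N := Nat.div_le_self _ _
  have hNpos : 0 < N := by omega
  have hNR : (0 : ℝ) < N := by exact_mod_cast hNpos
  have hLR : (0 : ℝ) < L := by exact_mod_cast hLpos
  have hN1R : (N1 : ℝ) ≤ N / L := by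
    rw [le_div_iff₀ hLR]
    exact_mod_cast Nat.div_mul_le_self N L
  set F : ℕ → ℂ := fun n => tw (bal s S δ) γ (n : ℤ) * h n with hF
  have hF1 : ∀ n, ‖F n‖ ≤ 1 := by
    intro n
    rw [hF, norm_mul]
    exact mul_le_one₀ (tw_norm (fun n => bal_abs d0 d1 n) _ _) (norm_nonneg _) (hh.1 _)
  -- the block
  have hblock : ∫ v in (-V)..V, ‖∑ n ∈ Ioc N1 N, F n * G (Real.exp v * n)‖ ^ 2 ≤ P * (2 * ε' * N) ^ 2 := by
    have e : ∀ v : ℝ, ∑ n ∈ Ioc N1 N, F n * G (Real.exp v * n)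
        = ∑ n ∈ Ioc N1 N, F n * (fun y => G (Real.exp y)) (v + Real.log n) := by
      intro v
      apply sum_congr rfl
      intro n hn
      rw [mem_Ioc] at hn
      have : (0 : ℝ) < n := by exact_mod_cast (by omega : 0 < n)
      simp only
      rw [Real.exp_add, Real.exp_log this]
    simp_rw [e]
    apply conv_line (Ioc N1 N) F (fun n => Real.log n) (hG.comp Real.measurable_exp) (fun x => hG1 _) hV.le hP0
      (a := Real.log N - Real.log L - V) (by rw [hP]; linarith)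
    · intro n hn
      rw [mem_Ioc] at hn
      have hnR : (0 : ℝ) < n := by exact_mod_cast (by omega : 0 < n)
      constructor
      · have h1 : (N : ℝ) / L ≤ n := by
          rw [div_le_iff₀ hLR]
          have h2 : N < L * (N1 + 1) := Nat.lt_mul_div_succ N hLpos
          have h3 : L * (N1 + 1) ≤ L * n := Nat.mul_le_mul_left _ hn.1
          have h4 : N ≤ n * L := by rw [mul_comm]; omega
          exact_mod_cast h4
        have h2 := Real.log_le_log (by positivity) h1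
        rw [Real.log_div hNR.ne' hLR.ne'] at h2
        linarith
      · have h1 : Real.log n ≤ Real.log N := Real.log_le_log hnR (by exact_mod_cast hn.2)
        rw [hP]
        linarith
    · intro t
      have hsplit : ∑ n ∈ Icc 1 N, F n * Complex.exp ((t * Real.log n : ℝ) * Complex.I)
          = ∑ n ∈ Icc 1 N1, F n * Complex.exp ((t * Real.log n : ℝ) * Complex.I)
            + ∑ n ∈ Ioc N1 N, F n * Complex.exp ((t * Real.log n : ℝ) * Complex.I) := by
        have e1 : Icc 1 N = Icc 1 N1 ∪ Ioc N1 N := by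
          ext n; simp only [mem_Icc, mem_union, mem_Ioc]; omega
        rw [e1, sum_union]
        rw [disjoint_left]
        intro n h1 h2
        rw [mem_Icc] at h1
        rw [mem_Ioc] at h2
        omega
      have hb : ∀ X : ℕ, N0 ≤ X → ‖∑ n ∈ Icc 1 X, F n * Complex.exp ((t * Real.log n : ℝ) * Complex.I)‖ ≤ ε' * X := by
        intro X hX
        have h1 := H S hS δ hδ X hX γ _ (mulB_twist hh t)
        refine le_trans (le_of_eq ?_) h1
        congr 1
        apply sum_congr rfl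
        intro n _
        rw [hF]
        ring
      have h1 := hb N (hN1a.trans hN1N)
      have h2 := hb N1 hN1a
      have e2 : ∑ n ∈ Ioc N1 N, F n * Complex.exp ((t * Real.log n : ℝ) * Complex.I)
          = ∑ n ∈ Icc 1 N, F n * Complex.exp ((t * Real.log n : ℝ) * Complex.I)
            - ∑ n ∈ Icc 1 N1, F n * Complex.exp ((t * Real.log n : ℝ) * Complex.I) := by
        rw [hsplit]; ring
      rw [e2]
      refine (norm_sub_le _ _).trans ?_
      have h3 : ε' * (N1 : ℝ) ≤ ε' * N := mul_le_mul_of_nonneg_left (by exact_mod_cast hN1N) hε'0.le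
      linarith
  -- pointwise
  have hpt : ∀ v : ℝ, ‖∑ n ∈ Icc 1 N, F n * G (Real.exp v * n)‖ ^ 2 ≤
      2 * ‖∑ n ∈ Ioc N1 N, F n * G (Real.exp v * n)‖ ^ 2 + 2 * (N1 : ℝ) ^ 2 := by
    intro v
    have hsplit : ∑ n ∈ Icc 1 N, F n * G (Real.exp v * n)
        = ∑ n ∈ Icc 1 N1, F n * G (Real.exp v * n) + ∑ n ∈ Ioc N1 N, F n * G (Real.exp v * n) := by
      have e1 : Icc 1 N = Icc 1 N1 ∪ Ioc N1 N := by
        ext n; simp only [mem_Icc, mem_union, mem_Ioc]; omega
      rw [e1, sum_union]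
      rw [disjoint_left]
      intro n h1 h2
      rw [mem_Icc] at h1
      rw [mem_Ioc] at h2
      omega
    rw [hsplit]
    have h1 := norm_add_le (∑ n ∈ Icc 1 N1, F n * G (Real.exp v * n)) (∑ n ∈ Ioc N1 N, F n * G (Real.exp v * n))
    have h2 := dil_bdd hG1 (Icc 1 N1) hF1 (fun n : ℕ => (n : ℝ)) (Real.exp v)
    rw [Nat.card_Icc, Nat.add_sub_cancel] at h2
    set a := ‖∑ n ∈ Icc 1 N1, F n * G (Real.exp v * n)‖
    set b := ‖∑ n ∈ Ioc N1 N, F n * G (Real.exp v * n)‖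
    have h3 : ‖∑ n ∈ Icc 1 N1, F n * G (Real.exp v * n) + ∑ n ∈ Ioc N1 N, F n * G (Real.exp v * n)‖ ^ 2 ≤ (a + b) ^ 2 :=
      pow_le_pow_left₀ (norm_nonneg _) h1 2
    nlinarith [sq_nonneg (a - b)]
  have hbd : ∀ I : Finset ℕ, ∀ v : ℝ, |‖∑ n ∈ I, F n * G (Real.exp v * n)‖ ^ 2| ≤ (I.card : ℝ) ^ 2 := by
    intro I v
    rw [abs_of_nonneg (by positivity)]
    exact dil_bdd hG1 I hF1 (fun n : ℕ => (n : ℝ)) (Real.exp v)
  have hi1 := ii_of_bdd (meas_dil hG (Icc 1 N) F (fun n : ℕ => (n : ℝ))) (hbd (Icc 1 N)) (-V) V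
  have hi2 := ii_of_bdd (meas_dil hG (Ioc N1 N) F (fun n : ℕ => (n : ℝ))) (hbd (Ioc N1 N)) (-V) V
  calc ∫ v in (-V)..V, ‖∑ n ∈ Icc 1 N, F n * G (Real.exp v * n)‖ ^ 2
      ≤ ∫ v in (-V)..V, (2 * ‖∑ n ∈ Ioc N1 N, F n * G (Real.exp v * n)‖ ^ 2 + 2 * (N1 : ℝ) ^ 2) := by
        apply intervalIntegral.integral_mono_on (by linarith) hi1
        · exact (hi2.const_mul 2).add intervalIntegrable_const
        · intro v _
          exact hpt v
    _ = 2 * (∫ v in (-V)..V, ‖∑ n ∈ Ioc N1 N, F n * G (Real.exp v * n)‖ ^ 2) + (2 * V) * (2 * (N1 : ℝ) ^ 2) := by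
        rw [intervalIntegral.integral_add (hi2.const_mul 2) intervalIntegrable_const,
          intervalIntegral.integral_const_mul, intervalIntegral.integral_const, smul_eq_mul]
        ring
    _ ≤ 2 * (P * (2 * ε' * N) ^ 2) + (2 * V) * (2 * (N / L) ^ 2) := by
        have h1 : (N1 : ℝ) ^ 2 ≤ (N / L) ^ 2 := pow_le_pow_left₀ (Nat.cast_nonneg _) hN1R 2
        have h2 := mul_le_mul_of_nonneg_left hblock (zero_le_two (α := ℝ))
        have h3 := mul_le_mul_of_nonneg_left h1 (by positivity : (0 : ℝ) ≤ (2 * V) * 2)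
        linarith
    _ = (8 * P * ε' ^ 2 + 4 * V / (L : ℝ) ^ 2) * N ^ 2 := by
        field_simp
        ring
    _ ≤ ε * N ^ 2 := by
        apply mul_le_mul_of_nonneg_right _ (by positivity)
        linarith

end Pool.Agent.H623.RD
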