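import Pool.Agent.H623.RD.B

/-! Real dilates, part C: the linear form of the main bound, and its reversal. -/

set_option autoImplicit false

namespace Pool.Agent.H623.RD

open MeasureTheory Finset
open Pool.Agent.H499R2.ND (Inv HD)
open Pool.Agent.W41 Pool.Agent.W41.FU Pool.Agent.W41.MU

/-- a change of variables inequality -/
theorem cov {φ φ' : ℝ → ℝ} {a b B : ℝ} (hab : a ≤ b) (hφ : ∀ x ∈ Set.Icc a b, HasDerivWithinAt φ (φ' x) (Set.Icc a b) x)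
    (hinj : Set.InjOn φ (Set.Icc a b)) (hB : ∀ x ∈ Set.Icc a b, |φ' x| ≤ B) {c d : ℝ} (hcd : c ≤ d)
    (himg : φ '' Set.Icc a b = Set.Icc c d) (hφm : Measurable φ)
    {K : ℝ → ℝ} (hK : Measurable K) (hK0 : ∀ x, 0 ≤ K x) {C : ℝ} (hKC : ∀ x, K x ≤ C) :
    ∫ x in c..d, K x ≤ B * ∫ x in a..b, K (φ x) := by
  have hint : IntegrableOn (fun x => K (φ x)) (Set.Icc a b) := by
    have h1 := ii_of_bdd (hK.comp hφm) (B := C) (fun x => by
      show |K (φ x)| ≤ C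
      rw [abs_of_nonneg (hK0 _)]; exact hKC _) a b
    rw [intervalIntegrable_iff_integrableOn_Ioc_of_le hab] at h1
    rw [integrableOn_Icc_iff_integrableOn_Ioc]
    exact h1
  rw [intervalIntegral.integral_of_le hcd, intervalIntegral.integral_of_le hab, ← integral_Icc_eq_integral_Ioc,
    ← integral_Icc_eq_integral_Ioc, ← himg,
    integral_image_eq_integral_abs_deriv_smul measurableSet_Icc hφ hinj K, ← integral_const_mul]
  apply integral_mono_of_nonneg (Filter.Eventually.of_forall fun x => by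
    simp only [smul_eq_mul]; exact mul_nonneg (abs_nonneg _) (hK0 _)) (hint.const_mul B)
  rw [Filter.EventuallyLE, ae_restrict_iff' measurableSet_Icc]
  refine Filter.Eventually.of_forall fun x hx => ?_
  simp only [smul_eq_mul]
  exact mul_le_mul_of_nonneg_right (hB x hx) (hK0 _)

theorem cov_exp {Λ : ℝ} (hΛ : 1 < Λ) {K : ℝ → ℝ} (hK : Measurable K) (hK0 : ∀ x, 0 ≤ K x) {C : ℝ} (hKC : ∀ x, K x ≤ C) :
    ∫ x in Λ⁻¹..Λ, K x ≤ Λ * ∫ v in (-Real.log Λ)..(Real.log Λ), K (Real.exp v) := by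
  have h0 : 0 < Real.log Λ := Real.log_pos hΛ
  have hΛ0 : 0 < Λ := by linarith
  refine cov (φ := Real.exp) (φ' := Real.exp) (by linarith) (fun x _ => (Real.hasDerivAt_exp x).hasDerivWithinAt)
    Real.exp_injective.injOn (fun x hx => ?_) (by
      have := inv_le_one_of_one_le₀ hΛ.le
      linarith) ?_ Real.measurable_exp hK hK0 hKC
  · rw [abs_of_pos (Real.exp_pos x)]
    calc Real.exp x ≤ Real.exp (Real.log Λ) := Real.exp_le_exp.2 hx.2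
      _ = Λ := Real.exp_log hΛ0
  · ext y
    constructor
    · rintro ⟨x, hx, rfl⟩
      refine ⟨?_, ?_⟩
      · calc Λ⁻¹ = Real.exp (-Real.log Λ) := by rw [Real.exp_neg, Real.exp_log hΛ0]
          _ ≤ Real.exp x := Real.exp_le_exp.2 hx.1
      · calc Real.exp x ≤ Real.exp (Real.log Λ) := Real.exp_le_exp.2 hx.2
          _ = Λ := Real.exp_log hΛ0
    · intro hy
      have hy0 : 0 < y := lt_of_lt_of_le (inv_pos.2 hΛ0) hy.1
      refine ⟨Real.log y, ⟨?_, Real.log_le_log hy0 hy.2⟩, Real.exp_log hy0⟩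
      rw [← Real.log_inv]
      exact Real.log_le_log (inv_pos.2 hΛ0) hy.1

theorem cov_inv {Λ : ℝ} (hΛ : 1 < Λ) {K : ℝ → ℝ} (hK : Measurable K) (hK0 : ∀ x, 0 ≤ K x) {C : ℝ} (hKC : ∀ x, K x ≤ C) :
    ∫ x in Λ⁻¹..Λ, K x ≤ Λ ^ 2 * ∫ x in Λ⁻¹..Λ, K (x⁻¹) := by
  have hΛ0 : 0 < Λ := by linarith
  have hi : Λ⁻¹ ≤ 1 := inv_le_one_of_one_le₀ hΛ.le
  have hpos : ∀ x ∈ Set.Icc Λ⁻¹ Λ, 0 < x := fun x hx => lt_of_lt_of_le (inv_pos.2 hΛ0) hx.1
  refine cov (φ := fun x => x⁻¹) (φ' := fun x => -(x ^ 2)⁻¹) (by linarith)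
    (fun x hx => (hasDerivAt_inv (hpos x hx).ne').hasDerivWithinAt) (fun x _ y _ h => inv_injective h)
    (fun x hx => ?_) (by linarith) ?_ measurable_inv hK hK0 hKC
  · have h1 := hpos x hx
    rw [abs_neg, abs_of_pos (by positivity), ← inv_pow]
    apply pow_le_pow_left₀ (by positivity)
    exact inv_le_of_inv_le₀ hΛ0 hx.1
  · ext y
    constructor
    · rintro ⟨x, hx, rfl⟩
      have h1 := hpos x hx
      exact ⟨inv_anti₀ h1 hx.2, inv_le_of_inv_le₀ hΛ0 hx.1⟩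
    · intro hy
      have h1 := hpos y hy
      exact ⟨y⁻¹, ⟨inv_anti₀ h1 hy.2, inv_le_of_inv_le₀ hΛ0 hy.1⟩, inv_inv y⟩

/-- the measurability of sums over dilates -/
theorem meas_sum {α : Type*} [MeasurableSpace α] {ι : Type*} (I : Finset ι) {F : ι → α → ℂ} (hF : ∀ i, Measurable (F i)) :
    Measurable (fun x => ‖∑ i ∈ I, F i x‖ ^ 2) := by
  apply Measurable.pow_const
  apply Measurable.norm
  exact Finset.measurable_sum _ fun i _ => hF i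

theorem norm_sum_sq_le {ι : Type*} (I : Finset ι) {F : ι → ℂ} (hF : ∀ i, ‖F i‖ ≤ 1) :
    ‖∑ i ∈ I, F i‖ ^ 2 ≤ (I.card : ℝ) ^ 2 := by
  apply pow_le_pow_left₀ (norm_nonneg _)
  refine (norm_sum_le _ _).trans ?_
  calc ∑ i ∈ I, ‖F i‖ ≤ ∑ _i ∈ I, (1 : ℝ) := sum_le_sum fun i _ => hF i
    _ = I.card := by rw [sum_const, nsmul_eq_mul, mul_one]

/-- THE MAIN BOUND -/
theorem main_lin {s : ℤ} (hs : s = 1 ∨ s = -1) {Λ ε : ℝ} (hΛ : 1 < Λ) (hε : 0 < ε) : ∃ N0 : ℕ, 1 ≤ N0 ∧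
    ∀ N : ℕ, N0 ≤ N → ∀ S : Set ℤ, Inv 1 S → ∀ δ : ℝ, HD s S δ → ∀ γ : ℝ, ∀ h : ℕ → ℂ, MulB h →
    ∀ G : ℝ → ℂ, Measurable G → (∀ x, ‖G x‖ ≤ 1) →
      ∫ l in Λ⁻¹..Λ, ‖∑ n ∈ Icc 1 N, tw (bal s S δ) γ (n : ℤ) * h n * G (l * n)‖ ^ 2 ≤ ε * N ^ 2 := by
  have hΛ0 : 0 < Λ := by linarith
  obtain ⟨N0, hN0, H⟩ := main_log hs (V := Real.log Λ) (ε := ε / Λ) (Real.log_pos hΛ) (by positivity)
  refine ⟨N0, hN0, fun N hN S hS δ hδ γ h hh G hG hG1 => ?_⟩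
  obtain ⟨d0, d1⟩ := HD_mem hs hδ
  have hF1 : ∀ n : ℕ, ‖tw (bal s S δ) γ (n : ℤ) * h n‖ ≤ 1 := by
    intro n
    rw [norm_mul]
    exact mul_le_one₀ (tw_norm (fun n => bal_abs d0 d1 n) _ _) (norm_nonneg _) (hh.1 _)
  have hb : ∀ l : ℝ, ‖∑ n ∈ Icc 1 N, tw (bal s S δ) γ (n : ℤ) * h n * G (l * n)‖ ^ 2 ≤ ((Icc 1 N).card : ℝ) ^ 2 := by
    intro l
    apply norm_sum_sq_le
    intro n
    rw [norm_mul]
    exact mul_le_one₀ (hF1 n) (norm_nonneg _) (hG1 _)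
  have hm : Measurable (fun l : ℝ => ‖∑ n ∈ Icc 1 N, tw (bal s S δ) γ (n : ℤ) * h n * G (l * n)‖ ^ 2) := by
    apply meas_sum
    intro n
    exact (hG.comp (measurable_id.mul_const _)).const_mul _
  have h1 := cov_exp hΛ hm (fun x => by positivity) hb
  have h2 := H N hN S hS δ hδ γ h hh G hG hG1
  refine h1.trans ?_
  calc Λ * ∫ v in (-Real.log Λ)..(Real.log Λ), ‖∑ n ∈ Icc 1 N, tw (bal s S δ) γ (n : ℤ) * h n * G (Real.exp v * n)‖ ^ 2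
      ≤ Λ * (ε / Λ * N ^ 2) := mul_le_mul_of_nonneg_left h2 hΛ0.le
    _ = ε * N ^ 2 := by field_simp

end Pool.Agent.H623.RD
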