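import Pool.Agent.H623.RD.C

/-! Real dilates, part D: the reversal, from the values `f m` at the integers against functions of `l * m`
to the values of `f` at the integer parts of the dilates, with arbitrary weights. -/

set_option autoImplicit false

namespace Pool.Agent.H623.RD

open MeasureTheory Finset

/-- the sliding sums of the weights -/
noncomputable def WW (N : ℕ) (w : ℕ → ℂ) (l x : ℝ) : ℂ :=
  ∑ n ∈ Icc 1 N, if (n : ℝ) - l < x ∧ x ≤ n then w n else 0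

/-- the number of the integers in `[x + a, x + a')` -/
noncomputable def Ex (a a' x : ℝ) : ℝ := (⌈x + a'⌉ : ℝ) - ⌈x + a⌉

theorem cnt (N : ℕ) {p q : ℝ} (h : p ≤ q) :
    (((Icc 1 N).filter (fun n : ℕ => p ≤ (n : ℝ) ∧ (n : ℝ) < q)).card : ℝ) ≤ (⌈q⌉ : ℝ) - ⌈p⌉ := by
  have h1 : ((Icc 1 N).filter (fun n : ℕ => p ≤ (n : ℝ) ∧ (n : ℝ) < q)).card ≤ (Ico ⌈p⌉ ⌈q⌉).card := by
    apply card_le_card_of_injOn (fun n : ℕ => (n : ℤ))
    · intro n hn
      rw [mem_coe, mem_filter] at hn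
      rw [mem_coe, mem_Ico]
      exact ⟨Int.ceil_le.2 (by exact_mod_cast hn.2.1), Int.lt_ceil.2 (by exact_mod_cast hn.2.2)⟩
    · intro a _ b _ hab
      have h2 : (a : ℤ) = (b : ℤ) := hab
      exact_mod_cast h2
  rw [Int.card_Ico] at h1
  have h2 : ⌈p⌉ ≤ ⌈q⌉ := Int.ceil_mono h
  have h3 : ((⌈q⌉ - ⌈p⌉).toNat : ℤ) = ⌈q⌉ - ⌈p⌉ := Int.toNat_of_nonneg (by omega)
  calc (((Icc 1 N).filter (fun n : ℕ => p ≤ (n : ℝ) ∧ (n : ℝ) < q)).card : ℝ) ≤ ((⌈q⌉ - ⌈p⌉).toNat : ℝ) := by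
        exact_mod_cast h1
    _ = (((⌈q⌉ - ⌈p⌉).toNat : ℤ) : ℝ) := by push_cast; rfl
    _ = (⌈q⌉ : ℝ) - ⌈p⌉ := by rw [h3]; push_cast; ring

theorem Ex_nonneg {a a' : ℝ} (h : a ≤ a') (x : ℝ) : 0 ≤ Ex a a' x := by
  unfold Ex
  have : ⌈x + a⌉ ≤ ⌈x + a'⌉ := Int.ceil_mono (by linarith)
  have h2 : (⌈x + a⌉ : ℝ) ≤ ⌈x + a'⌉ := by exact_mod_cast this
  linarith

theorem Ex_le_one {a a' : ℝ} (h1 : a' - a ≤ 1) (x : ℝ) : Ex a a' x ≤ 1 := by
  unfold Ex
  have : ⌈x + a'⌉ ≤ ⌈x + a⌉ + 1 := by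
    rw [← Int.ceil_add_one]
    exact Int.ceil_mono (by linarith)
  have h2 : (⌈x + a'⌉ : ℝ) ≤ ⌈x + a⌉ + 1 := by exact_mod_cast this
  linarith

theorem Ex_meas (a a' : ℝ) : Measurable (Ex a a') := by
  have h : ∀ c : ℝ, Measurable (fun x : ℝ => (⌈x + c⌉ : ℝ)) := fun c =>
    measurable_from_top.comp (Int.measurable_ceil.comp (measurable_id.add_const c))
  exact (h a').sub (h a)

theorem WW_meas (N : ℕ) (w : ℕ → ℂ) (l : ℝ) : Measurable (WW N w l) := by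
  apply Finset.measurable_sum
  intro n _
  refine Measurable.ite ?_ measurable_const measurable_const
  exact measurableSet_Ioc (a := (n : ℝ) - l) (b := (n : ℝ))

theorem WW_norm (N : ℕ) {w : ℕ → ℂ} (hw : ∀ n, ‖w n‖ ≤ 1) {l : ℝ} (hl : 0 ≤ l) (x : ℝ) : ‖WW N w l x‖ ≤ l + 1 := by
  unfold WW
  refine (norm_sum_le _ _).trans ?_
  calc ∑ n ∈ Icc 1 N, ‖(if (n : ℝ) - l < x ∧ x ≤ n then w n else 0)‖
      ≤ ∑ n ∈ Icc 1 N, (if x ≤ (n : ℝ) ∧ (n : ℝ) < x + l then (1 : ℝ) else 0) := by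
        apply sum_le_sum
        intro n _
        by_cases h : (n : ℝ) - l < x ∧ x ≤ n
        · rw [if_pos h, if_pos ⟨h.2, by linarith [h.1]⟩]
          exact hw n
        · rw [if_neg h, norm_zero]
          split_ifs <;> norm_num
    _ = (((Icc 1 N).filter (fun n : ℕ => x ≤ (n : ℝ) ∧ (n : ℝ) < x + l)).card : ℝ) := by
        rw [sum_ite, sum_const_zero, add_zero, sum_const, nsmul_eq_mul, mul_one]
    _ ≤ (⌈x + l⌉ : ℝ) - ⌈x⌉ := cnt N (by linarith)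
    _ ≤ l + 1 := by
        have h1 := Int.ceil_lt_add_one (x + l)
        have h2 := Int.le_ceil x
        linarith

theorem WW_diff (N : ℕ) {w : ℕ → ℂ} (hw : ∀ n, ‖w n‖ ≤ 1) {a a' l : ℝ} (h1 : a ≤ l) (h2 : l ≤ a') (x : ℝ) :
    ‖WW N w l x - WW N w a x‖ ≤ Ex a a' x := by
  unfold WW
  rw [← sum_sub_distrib]
  refine (norm_sum_le _ _).trans ?_
  calc ∑ n ∈ Icc 1 N, ‖(if (n : ℝ) - l < x ∧ x ≤ n then w n else 0) - (if (n : ℝ) - a < x ∧ x ≤ n then w n else 0)‖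
      ≤ ∑ n ∈ Icc 1 N, (if x + a ≤ (n : ℝ) ∧ (n : ℝ) < x + a' then (1 : ℝ) else 0) := by
        apply sum_le_sum
        intro n _
        by_cases h : (n : ℝ) - l < x ∧ x ≤ n
        · rw [if_pos h]
          by_cases h' : (n : ℝ) - a < x ∧ x ≤ n
          · rw [if_pos h', sub_self, norm_zero]
            split_ifs <;> norm_num
          · rw [if_neg h', sub_zero, if_pos]
            · exact hw n
            · have : ¬ ((n : ℝ) - a < x) := fun h3 => h' ⟨h3, h.2⟩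
              exact ⟨by linarith, by linarith [h.1]⟩
        · rw [if_neg h]
          have h' : ¬ ((n : ℝ) - a < x ∧ x ≤ n) := fun h3 => h ⟨by linarith [h3.1], h3.2⟩
          rw [if_neg h', sub_self, norm_zero]
          split_ifs <;> norm_num
    _ = (((Icc 1 N).filter (fun n : ℕ => x + a ≤ (n : ℝ) ∧ (n : ℝ) < x + a')).card : ℝ) := by
        rw [sum_ite, sum_const_zero, add_zero, sum_const, nsmul_eq_mul, mul_one]
    _ ≤ Ex a a' x := cnt N (by linarith)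

theorem ceil_ii (a b : ℝ) : IntervalIntegrable (fun x : ℝ => (⌈x⌉ : ℝ)) volume a b := by
  apply Monotone.intervalIntegrable
  intro x y h
  show (⌈x⌉ : ℝ) ≤ ⌈y⌉
  exact_mod_cast Int.ceil_mono h

theorem Ex_int {a a' : ℝ} (h : a ≤ a') {α β : ℝ} (hαβ : α ≤ β) :
    ∫ y in α..β, Ex a a' y ≤ (a' - a) * (β - α + (a' - a) + 1) := by
  have hi : ∀ c : ℝ, IntervalIntegrable (fun x : ℝ => (⌈x + c⌉ : ℝ)) volume α β := by
    intro c
    apply Monotone.intervalIntegrable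
    intro x y hxy
    have : ⌈x + c⌉ ≤ ⌈y + c⌉ := Int.ceil_mono (by linarith)
    show (⌈x + c⌉ : ℝ) ≤ ⌈y + c⌉
    exact_mod_cast this
  unfold Ex
  rw [intervalIntegral.integral_sub (hi a') (hi a),
    intervalIntegral.integral_comp_add_right (fun x : ℝ => (⌈x⌉ : ℝ)) a',
    intervalIntegral.integral_comp_add_right (fun x : ℝ => (⌈x⌉ : ℝ)) a,
    intervalIntegral.integral_interval_sub_interval_comm (ceil_ii _ _) (ceil_ii _ _) (ceil_ii _ _),
    intervalIntegral.integral_symm (α + a) (α + a'), intervalIntegral.integral_symm (β + a) (β + a')]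
  have h1 : ∫ x in (β + a)..(β + a'), (⌈x⌉ : ℝ) ≤ (a' - a) * ⌈β + a'⌉ := by
    have := intervalIntegral.integral_mono_on (a := β + a) (b := β + a') (by linarith) (ceil_ii _ _)
      (intervalIntegrable_const (c := (⌈β + a'⌉ : ℝ))) (fun x hx => by exact_mod_cast Int.ceil_mono hx.2)
    rw [intervalIntegral.integral_const, smul_eq_mul] at this
    calc _ ≤ _ := this
      _ = _ := by ring
  have h2 : (a' - a) * ⌈α + a⌉ ≤ ∫ x in (α + a)..(α + a'), (⌈x⌉ : ℝ) := by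
    have := intervalIntegral.integral_mono_on (a := α + a) (b := α + a') (by linarith)
      (intervalIntegrable_const (c := (⌈α + a⌉ : ℝ))) (ceil_ii _ _) (fun x hx => by exact_mod_cast Int.ceil_mono hx.1)
    rw [intervalIntegral.integral_const, smul_eq_mul] at this
    calc _ = _ := by ring
      _ ≤ _ := this
  have h3 : (⌈β + a'⌉ : ℝ) - ⌈α + a⌉ ≤ β - α + (a' - a) + 1 := by
    have h4 := Int.ceil_lt_add_one (β + a')
    have h5 := Int.le_ceil (α + a)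
    linarith
  have h4 := mul_le_mul_of_nonneg_left h3 (sub_nonneg.2 h)
  linarith

theorem Ex_int_dil {a a' : ℝ} (h : a ≤ a') {m : ℕ} (hm : 1 ≤ m) :
    ∫ l in a..a', Ex a a' (l * m) ≤ (a' - a) ^ 2 + (a' - a) * (a' - a + 1) / m := by
  have hmR : (0 : ℝ) < m := by exact_mod_cast hm
  rw [intervalIntegral.integral_comp_mul_right _ hmR.ne', smul_eq_mul]
  have h1 := Ex_int h (α := a * m) (β := a' * m) (by nlinarith)
  calc (m : ℝ)⁻¹ * ∫ y in (a * m)..(a' * m), Ex a a' y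
      ≤ (m : ℝ)⁻¹ * ((a' - a) * (a' * m - a * m + (a' - a) + 1)) :=
        mul_le_mul_of_nonneg_left h1 (by positivity)
    _ = (a' - a) ^ 2 + (a' - a) * (a' - a + 1) / m := by
        field_simp
        ring

/-- the identity between the two sides, up to the small terms -/
theorem swap {f : ℤ → ℝ} (hf : ∀ x, |f x| ≤ 1) {N M : ℕ} {w : ℕ → ℂ} (hw : ∀ n, ‖w n‖ ≤ 1) {Λ l : ℝ}
    (hl0 : Λ⁻¹ ≤ l) (hl1 : l ≤ Λ) (hΛ : 1 < Λ) (hM : Λ * N ≤ M) :
    ‖∑ n ∈ Icc 1 N, w n * (f ⌊l⁻¹ * n⌋ : ℂ) - ∑ m ∈ Icc 1 M, (f (m : ℕ) : ℂ) * WW N w l (l * m)‖ ≤ Λ := by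
  have hΛ0 : 0 < Λ := by linarith
  have hl : 0 < l := lt_of_lt_of_le (inv_pos.2 hΛ0) hl0
  have e1 : ∑ m ∈ Icc 1 M, (f (m : ℕ) : ℂ) * WW N w l (l * m)
      = ∑ n ∈ Icc 1 N, w n * (if ⌊l⁻¹ * (n : ℝ)⌋ = 0 then 0 else (f ⌊l⁻¹ * n⌋ : ℂ)) := by
    unfold WW
    simp_rw [mul_sum]
    rw [sum_comm]
    apply sum_congr rfl
    intro n hn
    rw [mem_Icc] at hn
    have hnR : (1 : ℝ) ≤ n := by exact_mod_cast hn.1
    have hfl0 : 0 ≤ ⌊l⁻¹ * (n : ℝ)⌋ := Int.floor_nonneg.2 (by positivity)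
    have hkey : ∀ m : ℕ, ((n : ℝ) - l < l * m ∧ l * m ≤ n) ↔ ⌊l⁻¹ * (n : ℝ)⌋ = (m : ℤ) := by
      intro m
      rw [Int.floor_eq_iff]
      constructor
      · rintro ⟨h1, h2⟩
        constructor
        · rw [le_inv_mul_iff₀ hl]; push_cast; exact h2
        · rw [inv_mul_lt_iff₀ hl]; push_cast; linarith
      · rintro ⟨h1, h2⟩
        rw [le_inv_mul_iff₀ hl] at h1
        rw [inv_mul_lt_iff₀ hl] at h2
        push_cast at h1 h2
        exact ⟨by linarith, h1⟩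
    have e2 : ∀ m ∈ Icc 1 M, (f (m : ℕ) : ℂ) * (if (n : ℝ) - l < l * m ∧ l * m ≤ n then w n else 0)
        = if ⌊l⁻¹ * (n : ℝ)⌋ = (m : ℤ) then w n * (f ⌊l⁻¹ * n⌋ : ℂ) else 0 := by
      intro m _
      by_cases h : ⌊l⁻¹ * (n : ℝ)⌋ = (m : ℤ)
      · rw [if_pos ((hkey m).2 h), if_pos h, h, mul_comm]
      · rw [if_neg (fun h2 => h ((hkey m).1 h2)), if_neg h, mul_zero]
    rw [sum_congr rfl e2]
    obtain ⟨k, hk⟩ := Int.eq_ofNat_of_zero_le hfl0
    rw [hk]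
    by_cases hk0 : k = 0
    · subst hk0
      rw [if_pos (by rfl), mul_zero]
      apply sum_eq_zero
      intro m hm
      rw [mem_Icc] at hm
      rw [if_neg]
      intro h
      have : (0 : ℕ) = m := by exact_mod_cast h
      omega
    · rw [if_neg (by exact_mod_cast hk0)]
      have hkM : k ∈ Icc 1 M := by
        rw [mem_Icc]
        refine ⟨by omega, ?_⟩
        have h1 : ((⌊l⁻¹ * (n : ℝ)⌋ : ℤ) : ℝ) ≤ l⁻¹ * n := Int.floor_le _
        rw [hk] at h1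
        have h2 : l⁻¹ ≤ Λ := inv_le_of_inv_le₀ hΛ0 hl0
        have h3 : l⁻¹ * (n : ℝ) ≤ Λ * N := mul_le_mul h2 (by exact_mod_cast hn.2) (by positivity) hΛ0.le
        have h4 : ((k : ℤ) : ℝ) ≤ (M : ℝ) := by linarith
        have h5 : ((k : ℤ) : ℝ) = (k : ℝ) := by push_cast; rfl
        rw [h5] at h4
        exact_mod_cast h4
      have e3 : ∀ m ∈ Icc 1 M, (if (k : ℤ) = (m : ℤ) then w n * (f (k : ℤ) : ℂ) else 0)
          = if k = m then w n * (f (k : ℤ) : ℂ) else 0 := by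
        intro m _
        by_cases h : k = m
        · rw [if_pos h, if_pos (by exact_mod_cast h)]
        · rw [if_neg h, if_neg (by exact_mod_cast h)]
      rw [sum_congr rfl e3, sum_ite_eq, if_pos hkM]
  rw [e1, ← sum_sub_distrib]
  refine (norm_sum_le _ _).trans ?_
  calc ∑ n ∈ Icc 1 N, ‖w n * (f ⌊l⁻¹ * n⌋ : ℂ) - w n * (if ⌊l⁻¹ * (n : ℝ)⌋ = 0 then 0 else (f ⌊l⁻¹ * n⌋ : ℂ))‖
      ≤ ∑ n ∈ Icc 1 N, (if n ≤ ⌊Λ⌋₊ then (1 : ℝ) else 0) := by
        apply sum_le_sum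
        intro n hn
        rw [mem_Icc] at hn
        by_cases h : ⌊l⁻¹ * (n : ℝ)⌋ = 0
        · rw [if_pos h, mul_zero, sub_zero]
          have h1 : l⁻¹ * (n : ℝ) < 1 := by
            have := (Int.floor_eq_iff.1 h).2
            push_cast at this
            linarith
          rw [inv_mul_lt_iff₀ hl, mul_one] at h1
          rw [if_pos (Nat.le_floor (by linarith)), norm_mul]
          refine mul_le_one₀ (hw n) (norm_nonneg _) ?_
          rw [Complex.norm_real, Real.norm_eq_abs]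
          exact hf _
        · rw [if_neg h, sub_self, norm_zero]
          split_ifs <;> norm_num
    _ = (((Icc 1 N).filter (fun n : ℕ => n ≤ ⌊Λ⌋₊)).card : ℝ) := by
        rw [sum_ite, sum_const_zero, add_zero, sum_const, nsmul_eq_mul, mul_one]
    _ ≤ ((Icc 1 ⌊Λ⌋₊).card : ℝ) := by
        have : (Icc 1 N).filter (fun n : ℕ => n ≤ ⌊Λ⌋₊) ⊆ Icc 1 ⌊Λ⌋₊ := by
          intro n hn
          rw [mem_filter, mem_Icc] at hn
          rw [mem_Icc]
          exact ⟨hn.1.1, hn.2⟩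
        exact_mod_cast card_le_card this
    _ ≤ Λ := by
        rw [Nat.card_Icc, Nat.add_sub_cancel]
        exact Nat.floor_le hΛ0.le

end Pool.Agent.H623.RD
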