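import Pool.Agent.H623.RD.D

/-! Real dilates, part E: the reversal, assembled. -/

set_option autoImplicit false

namespace Pool.Agent.H623.RD

open MeasureTheory Finset
open Pool.Agent.H499R2.ND (Inv HD)
open Pool.Agent.W41 Pool.Agent.W41.FU Pool.Agent.W41.MU

/-- the function of the dilate -/
noncomputable def RV (f : ℤ → ℝ) (w : ℕ → ℂ) (N : ℕ) (x : ℝ) : ℂ := ∑ n ∈ Icc 1 N, w n * (f ⌊x * n⌋ : ℂ)

theorem RV_meas (f : ℤ → ℝ) (w : ℕ → ℂ) (N : ℕ) : Measurable (RV f w N) := by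
  apply Finset.measurable_sum
  intro n _
  apply Measurable.const_mul
  have h : Measurable (fun z : ℤ => (f z : ℂ)) := measurable_from_top
  exact h.comp (Int.measurable_floor.comp (measurable_id.mul_const _))

theorem RV_norm {f : ℤ → ℝ} (hf : ∀ x, |f x| ≤ 1) {w : ℕ → ℂ} (hw : ∀ n, ‖w n‖ ≤ 1) (N : ℕ) (x : ℝ) :
    ‖RV f w N x‖ ≤ N := by
  unfold RV
  refine (norm_sum_le _ _).trans ?_
  calc ∑ n ∈ Icc 1 N, ‖w n * (f ⌊x * n⌋ : ℂ)‖ ≤ ∑ _n ∈ Icc 1 N, (1 : ℝ) := by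
        apply sum_le_sum
        intro n _
        rw [norm_mul]
        refine mul_le_one₀ (hw n) (norm_nonneg _) ?_
        rw [Complex.norm_real, Real.norm_eq_abs]
        exact hf _
    _ = N := by rw [sum_const, Nat.card_Icc, Nat.add_sub_cancel, nsmul_eq_mul, mul_one]

theorem RV_sq_meas (f : ℤ → ℝ) (w : ℕ → ℂ) (N : ℕ) : Measurable (fun x => ‖RV f w N x‖ ^ 2) :=
  (RV_meas f w N).norm.pow_const 2

theorem block {f : ℤ → ℝ} (hf : ∀ x, |f x| ≤ 1) {N M : ℕ} {w : ℕ → ℂ} (hw : ∀ n, ‖w n‖ ≤ 1) {Λ a a' B : ℝ}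
    (hΛ : 1 < Λ) (ha : Λ⁻¹ ≤ a) (ha' : a' ≤ Λ) (haa : a ≤ a') (h1 : a' - a ≤ 1) (hM : Λ * N ≤ M)
    (hB : ∫ l in a..a', ‖∑ m ∈ Icc 1 M, (f (m : ℕ) : ℂ) * WW N w a (l * m)‖ ^ 2 ≤ B) :
    ∫ l in a..a', ‖RV f w N (l⁻¹)‖ ^ 2 ≤ 3 * Λ ^ 2 * (a' - a) + 3 * B
      + 3 * M * ∑ m ∈ Icc 1 M, ((a' - a) ^ 2 + (a' - a) * (a' - a + 1) / m) := by
  have hΛ0 : 0 < Λ := by linarith
  have ha0 : 0 < a := lt_of_lt_of_le (inv_pos.2 hΛ0) ha
  -- the three terms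
  set A1 : ℝ → ℝ := fun l => ‖∑ m ∈ Icc 1 M, (f (m : ℕ) : ℂ) * WW N w a (l * m)‖ ^ 2 with hA1
  set A2 : ℝ → ℝ := fun l => ∑ m ∈ Icc 1 M, Ex a a' (l * m) with hA2
  have hA2m : Measurable A2 := Finset.measurable_sum _ fun m _ => (Ex_meas a a').comp (measurable_id.mul_const _)
  have hA20 : ∀ l, 0 ≤ A2 l := fun l => sum_nonneg fun m _ => Ex_nonneg haa _
  have hA2M : ∀ l, A2 l ≤ M := fun l => by
    calc A2 l ≤ ∑ _m ∈ Icc 1 M, (1 : ℝ) := sum_le_sum fun m _ => Ex_le_one h1 _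
      _ = M := by rw [sum_const, Nat.card_Icc, Nat.add_sub_cancel, nsmul_eq_mul, mul_one]
  have hpt : ∀ l ∈ Set.Icc a a', ‖RV f w N (l⁻¹)‖ ^ 2 ≤ 3 * Λ ^ 2 + 3 * A1 l + 3 * M * A2 l := by
    intro l hl
    have h2 := swap hf (M := M) hw (ha.trans hl.1) (hl.2.trans ha') hΛ hM
    have h3 : ‖∑ m ∈ Icc 1 M, (f (m : ℕ) : ℂ) * WW N w l (l * m) - ∑ m ∈ Icc 1 M, (f (m : ℕ) : ℂ) * WW N w a (l * m)‖
        ≤ A2 l := by
      rw [← sum_sub_distrib]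
      refine (norm_sum_le _ _).trans ?_
      apply sum_le_sum
      intro m _
      rw [← mul_sub, norm_mul]
      have h4 : ‖(f (m : ℕ) : ℂ)‖ ≤ 1 := by
        rw [Complex.norm_real, Real.norm_eq_abs]; exact hf _
      calc ‖(f (m : ℕ) : ℂ)‖ * ‖WW N w l (l * m) - WW N w a (l * m)‖
          ≤ 1 * ‖WW N w l (l * m) - WW N w a (l * m)‖ := mul_le_mul_of_nonneg_right h4 (norm_nonneg _)
        _ ≤ Ex a a' (l * m) := by rw [one_mul]; exact WW_diff N hw hl.1 hl.2 _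
    set z1 := ∑ n ∈ Icc 1 N, w n * (f ⌊l⁻¹ * n⌋ : ℂ) with hz1
    set z2 := ∑ m ∈ Icc 1 M, (f (m : ℕ) : ℂ) * WW N w l (l * m)
    set z3 := ∑ m ∈ Icc 1 M, (f (m : ℕ) : ℂ) * WW N w a (l * m) with hz3
    have h5 : ‖z1‖ ≤ Λ + ‖z3‖ + A2 l := by
      calc ‖z1‖ = ‖(z1 - z2) + (z2 - z3) + z3‖ := by congr 1; ring
        _ ≤ ‖(z1 - z2) + (z2 - z3)‖ + ‖z3‖ := norm_add_le _ _
        _ ≤ ‖z1 - z2‖ + ‖z2 - z3‖ + ‖z3‖ := by gcongr; exact norm_add_le _ _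
        _ ≤ Λ + ‖z3‖ + A2 l := by linarith
    have h6 : ‖z1‖ ^ 2 ≤ (Λ + ‖z3‖ + A2 l) ^ 2 := pow_le_pow_left₀ (norm_nonneg _) h5 2
    have h7 : A2 l ^ 2 ≤ M * A2 l := by nlinarith [hA20 l, hA2M l]
    have h8 : (Λ + ‖z3‖ + A2 l) ^ 2 ≤ 3 * Λ ^ 2 + 3 * ‖z3‖ ^ 2 + 3 * A2 l ^ 2 := by
      nlinarith [sq_nonneg (Λ - ‖z3‖), sq_nonneg (Λ - A2 l), sq_nonneg (‖z3‖ - A2 l)]
    show ‖z1‖ ^ 2 ≤ 3 * Λ ^ 2 + 3 * ‖z3‖ ^ 2 + 3 * M * A2 l
    linarith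
  -- integrability
  have hi0 : IntervalIntegrable (fun l => ‖RV f w N (l⁻¹)‖ ^ 2) volume a a' := by
    apply ii_of_bdd ((RV_sq_meas f w N).comp measurable_inv) (B := (N : ℝ) ^ 2)
    intro l
    show |‖RV f w N (l⁻¹)‖ ^ 2| ≤ (N : ℝ) ^ 2
    rw [abs_of_nonneg (by positivity)]
    exact pow_le_pow_left₀ (norm_nonneg _) (RV_norm hf hw N _) 2
  have hi1 : IntervalIntegrable A1 volume a a' := by
    refine ii_of_bdd (B := ((M : ℝ) * (a + 1)) ^ 2) ?_ ?_ _ _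
    · apply meas_sum
      intro m
      exact ((WW_meas N w a).comp (measurable_id.mul_const _)).const_mul _
    · intro l
      rw [hA1, abs_of_nonneg (by positivity)]
      apply pow_le_pow_left₀ (norm_nonneg _)
      refine (norm_sum_le _ _).trans ?_
      calc ∑ m ∈ Icc 1 M, ‖(f (m : ℕ) : ℂ) * WW N w a (l * m)‖ ≤ ∑ _m ∈ Icc 1 M, (a + 1) := by
            apply sum_le_sum
            intro m _
            rw [norm_mul]
            have h4 : ‖(f (m : ℕ) : ℂ)‖ ≤ 1 := by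
              rw [Complex.norm_real, Real.norm_eq_abs]; exact hf _
            have h5 := WW_norm N hw ha0.le (l * m)
            nlinarith [norm_nonneg (WW N w a (l * m)), norm_nonneg (f (m : ℕ) : ℂ)]
        _ = M * (a + 1) := by rw [sum_const, Nat.card_Icc, Nat.add_sub_cancel, nsmul_eq_mul]
  have hiE : ∀ m : ℕ, IntervalIntegrable (fun l => Ex a a' (l * m)) volume a a' := by
    intro m
    apply ii_of_bdd (B := 1) ((Ex_meas a a').comp (measurable_id.mul_const _))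
    intro l
    show |Ex a a' (l * m)| ≤ 1
    rw [abs_of_nonneg (Ex_nonneg haa _)]
    exact Ex_le_one h1 _
  have hi2 : IntervalIntegrable A2 volume a a' := by
    have h4 := IntervalIntegrable.sum (Icc 1 M) fun m _ => hiE m
    have e : (∑ m ∈ Icc 1 M, fun l : ℝ => Ex a a' (l * m)) = A2 := by
      ext l
      rw [Finset.sum_apply]
    rwa [e] at h4
  have hI2 : ∫ l in a..a', A2 l ≤ ∑ m ∈ Icc 1 M, ((a' - a) ^ 2 + (a' - a) * (a' - a + 1) / m) := by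
    rw [hA2, intervalIntegral.integral_finsetSum fun m _ => hiE m]
    apply sum_le_sum
    intro m hm
    rw [mem_Icc] at hm
    exact Ex_int_dil haa hm.1
  calc ∫ l in a..a', ‖RV f w N (l⁻¹)‖ ^ 2
      ≤ ∫ l in a..a', (3 * Λ ^ 2 + 3 * A1 l + 3 * M * A2 l) := by
        apply intervalIntegral.integral_mono_on haa hi0
        · exact (intervalIntegrable_const.add (hi1.const_mul 3)).add (hi2.const_mul (3 * M))
        · exact hpt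
    _ = 3 * Λ ^ 2 * (a' - a) + 3 * (∫ l in a..a', A1 l) + 3 * M * (∫ l in a..a', A2 l) := by
        rw [intervalIntegral.integral_add (intervalIntegrable_const.add (hi1.const_mul 3)) (hi2.const_mul (3 * M)),
          intervalIntegral.integral_add intervalIntegrable_const (hi1.const_mul 3),
          intervalIntegral.integral_const_mul 3 A1, intervalIntegral.integral_const_mul (3 * (M : ℝ)) A2,
          intervalIntegral.integral_const, smul_eq_mul]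
        ring
    _ ≤ _ := by
        have h9 := mul_le_mul_of_nonneg_left hI2 (by positivity : (0 : ℝ) ≤ 3 * M)
        linarith

theorem inv_sum {θ : ℝ} (hθ : 0 < θ) {K : ℕ} (hK : 1 / θ ≤ K) (M : ℕ) :
    ∑ m ∈ Icc 1 M, (1 : ℝ) / m ≤ K + θ * M := by
  calc ∑ m ∈ Icc 1 M, (1 : ℝ) / m ≤ ∑ m ∈ Icc 1 M, ((if m ≤ K then (1 : ℝ) else 0) + θ) := by
        apply sum_le_sum
        intro m hm
        rw [mem_Icc] at hm
        have hm1 : (1 : ℝ) ≤ m := by exact_mod_cast hm.1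
        by_cases h : m ≤ K
        · rw [if_pos h]
          have : (1 : ℝ) / m ≤ 1 := by rw [div_le_one (by linarith)]; exact hm1
          linarith
        · rw [if_neg h, zero_add, div_le_iff₀ (by linarith)]
          rw [div_le_iff₀ hθ] at hK
          have h2 : (K : ℝ) ≤ m := by exact_mod_cast (by omega : K ≤ m)
          nlinarith
    _ = (((Icc 1 M).filter (fun m : ℕ => m ≤ K)).card : ℝ) + θ * M := by
        rw [sum_add_distrib, sum_ite, sum_const_zero, add_zero, sum_const, nsmul_eq_mul, mul_one, sum_const,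
          Nat.card_Icc, Nat.add_sub_cancel, nsmul_eq_mul]
        ring
    _ ≤ K + θ * M := by
        have : (Icc 1 M).filter (fun m : ℕ => m ≤ K) ⊆ Icc 1 K := by
          intro n hn
          rw [mem_filter, mem_Icc] at hn
          rw [mem_Icc]
          exact ⟨hn.1.1, hn.2⟩
        have h2 := card_le_card this
        rw [Nat.card_Icc, Nat.add_sub_cancel] at h2
        have h3 : (((Icc 1 M).filter (fun m : ℕ => m ≤ K)).card : ℝ) ≤ K := by exact_mod_cast h2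
        linarith

theorem numeric {Λ ε θ K M N J ε' I1 I2 : ℝ} (hΛ0 : 0 < Λ) (hε : 0 < ε) (hθ0 : 0 < θ) (hJ0 : 0 < J) (hK0 : 0 ≤ K)
    (hM0 : 0 ≤ M) (hN1' : 1 ≤ N) (hM2 : M ≤ 2 * (Λ * N)) (hε' : ε' = ε / (48 * J * (Λ + 1) ^ 2 * Λ ^ 4))
    (hθ2 : 36 * Λ ^ 5 * θ ≤ ε / 4)
    (hNa : 12 * Λ ^ 5 ≤ N * ε) (hNb : 48 * 2 * Λ ^ 4 * K ≤ N * ε) (h1 : I1 ≤ Λ ^ 2 * I2)
    (h3 : I2 ≤ 3 * Λ ^ 3 + 3 * J * (Λ + 1) ^ 2 * ε' * M ^ 2 + 3 * M * (Λ * (3 * θ * M + 2 * K))) :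
    I1 ≤ ε * N ^ 2 := by
  have hε'0 : 0 < ε' := by rw [hε']; positivity
  have hMsq : M ^ 2 ≤ 4 * Λ ^ 2 * N ^ 2 := by
    calc M ^ 2 ≤ (2 * (Λ * N)) ^ 2 := pow_le_pow_left₀ hM0 hM2 2
      _ = 4 * Λ ^ 2 * N ^ 2 := by ring
  have h4 : Λ ^ 2 * (3 * Λ ^ 3) ≤ ε / 4 * N ^ 2 := by
    have h5 : N ≤ N ^ 2 := by nlinarith
    have h6 : 12 * Λ ^ 5 ≤ N ^ 2 * ε := hNa.trans (mul_le_mul_of_nonneg_right h5 hε.le)
    calc Λ ^ 2 * (3 * Λ ^ 3) = (12 * Λ ^ 5) / 4 := by ring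
      _ ≤ (N ^ 2 * ε) / 4 := by linarith
      _ = ε / 4 * N ^ 2 := by ring
  have h5 : Λ ^ 2 * (3 * J * (Λ + 1) ^ 2 * ε' * M ^ 2) ≤ ε / 4 * N ^ 2 := by
    calc Λ ^ 2 * (3 * J * (Λ + 1) ^ 2 * ε' * M ^ 2) = (3 * J * (Λ + 1) ^ 2 * Λ ^ 2 * ε') * M ^ 2 := by ring
      _ ≤ (3 * J * (Λ + 1) ^ 2 * Λ ^ 2 * ε') * (4 * Λ ^ 2 * N ^ 2) := mul_le_mul_of_nonneg_left hMsq (by positivity)
      _ = ε / 4 * N ^ 2 := by
        rw [hε']
        field_simp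
        ring
  have h6 : Λ ^ 2 * (3 * M * (Λ * (3 * θ * M))) ≤ ε / 4 * N ^ 2 := by
    calc Λ ^ 2 * (3 * M * (Λ * (3 * θ * M))) = (9 * Λ ^ 3 * θ) * M ^ 2 := by ring
      _ ≤ (9 * Λ ^ 3 * θ) * (4 * Λ ^ 2 * N ^ 2) := mul_le_mul_of_nonneg_left hMsq (by positivity)
      _ = (36 * Λ ^ 5 * θ) * N ^ 2 := by ring
      _ ≤ ε / 4 * N ^ 2 := mul_le_mul_of_nonneg_right hθ2 (by positivity)
  have h7 : Λ ^ 2 * (3 * M * (Λ * (2 * K))) ≤ ε / 4 * N ^ 2 := by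
    calc Λ ^ 2 * (3 * M * (Λ * (2 * K))) = (6 * Λ ^ 3 * K) * M := by ring
      _ ≤ (6 * Λ ^ 3 * K) * (2 * (Λ * N)) := mul_le_mul_of_nonneg_left hM2 (by positivity)
      _ = (12 * Λ ^ 4 * K) * N := by ring
      _ ≤ (N * (ε / 4)) * N := by
        apply mul_le_mul_of_nonneg_right _ (by linarith)
        have : 0 ≤ Λ ^ 4 * K := by positivity
        linarith
      _ = ε / 4 * N ^ 2 := by ring
  calc I1 ≤ Λ ^ 2 * I2 := h1
    _ ≤ Λ ^ 2 * (3 * Λ ^ 3 + 3 * J * (Λ + 1) ^ 2 * ε' * M ^ 2 + 3 * M * (Λ * (3 * θ * M + 2 * K))) :=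
        mul_le_mul_of_nonneg_left h3 (by positivity)
    _ = Λ ^ 2 * (3 * Λ ^ 3) + Λ ^ 2 * (3 * J * (Λ + 1) ^ 2 * ε' * M ^ 2) + Λ ^ 2 * (3 * M * (Λ * (3 * θ * M)))
        + Λ ^ 2 * (3 * M * (Λ * (2 * K))) := by ring
    _ ≤ ε / 4 * N ^ 2 + ε / 4 * N ^ 2 + ε / 4 * N ^ 2 + ε / 4 * N ^ 2 :=
        add_le_add (add_le_add (add_le_add h4 h5) h6) h7
    _ = ε * N ^ 2 := by ring

/-- THE REVERSAL -/
theorem reversal {Λ ε : ℝ} (hΛ : 1 < Λ) (hε : 0 < ε) : ∃ ε' : ℝ, 0 < ε' ∧ ∃ N1 : ℕ, 1 ≤ N1 ∧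
    ∀ f : ℤ → ℝ, (∀ x, |f x| ≤ 1) → ∀ N : ℕ, N1 ≤ N → ∀ M : ℕ, Λ * N ≤ M → (M : ℝ) ≤ 2 * (Λ * N) →
    (∀ G : ℝ → ℂ, Measurable G → (∀ x, ‖G x‖ ≤ 1) →
      ∫ l in Λ⁻¹..Λ, ‖∑ m ∈ Icc 1 M, (f (m : ℕ) : ℂ) * G (l * m)‖ ^ 2 ≤ ε' * M ^ 2) →
    ∀ w : ℕ → ℂ, (∀ n, ‖w n‖ ≤ 1) → ∫ l in Λ⁻¹..Λ, ‖RV f w N l‖ ^ 2 ≤ ε * N ^ 2 := by
  have hΛ0 : 0 < Λ := by linarith
  have hi : Λ⁻¹ ≤ 1 := inv_le_one_of_one_le₀ hΛ.le
  have hi0 : 0 < Λ⁻¹ := inv_pos.2 hΛ0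
  set L : ℝ := Λ - Λ⁻¹ with hL
  have hL0 : 0 < L := by rw [hL]; linarith
  have hLΛ : L ≤ Λ := by rw [hL]; linarith
  obtain ⟨J, hJ⟩ := exists_nat_ge (144 * Λ ^ 6 / ε + Λ)
  have hJ1 : 144 * Λ ^ 6 / ε ≤ J := by linarith
  have hJ2 : Λ ≤ J := by
    have : 0 ≤ 144 * Λ ^ 6 / ε := by positivity
    linarith
  have hJ0 : (0 : ℝ) < J := by linarith
  set θ : ℝ := L / J with hθ
  have hθ0 : 0 < θ := by positivity
  have hJθ : J * θ = L := by rw [hθ]; field_simp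
  have hθ1 : θ ≤ 1 := by
    rw [hθ, div_le_one hJ0]; linarith
  have hθ2 : 36 * Λ ^ 5 * θ ≤ ε / 4 := by
    rw [div_le_iff₀ hε] at hJ1
    rw [hθ, mul_div_assoc', div_le_iff₀ hJ0]
    have : 36 * Λ ^ 5 * L ≤ 36 * Λ ^ 5 * Λ := mul_le_mul_of_nonneg_left hLΛ (by positivity)
    nlinarith
  obtain ⟨K, hK⟩ := exists_nat_ge (1 / θ)
  set ε' : ℝ := ε / (48 * J * (Λ + 1) ^ 2 * Λ ^ 4) with hε'
  have hε'0 : 0 < ε' := by positivity
  obtain ⟨N1, hN1⟩ := exists_nat_ge (12 * Λ ^ 5 / ε + 48 * 2 * Λ ^ 4 * K / ε + 1)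
  have hN1R : (1 : ℝ) ≤ N1 := by
    have h1 : 0 ≤ 12 * Λ ^ 5 / ε := by positivity
    have h2 : 0 ≤ 48 * 2 * Λ ^ 4 * K / ε := by positivity
    linarith
  refine ⟨ε', hε'0, N1, by exact_mod_cast hN1R, fun f hf N hN M hM1 hM2 H w hw => ?_⟩
  have hNR : (N1 : ℝ) ≤ N := by exact_mod_cast hN
  have hN1' : (1 : ℝ) ≤ N := by linarith
  have hNa : 12 * Λ ^ 5 / ε ≤ N := by
    have h2 : 0 ≤ 48 * 2 * Λ ^ 4 * K / ε := by positivity
    linarith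
  have hNb : 48 * 2 * Λ ^ 4 * K / ε ≤ N := by
    have h2 : 0 ≤ 12 * Λ ^ 5 / ε := by positivity
    linarith
  rw [div_le_iff₀ hε] at hNa hNb
  have hbd : ∀ x, ‖RV f w N x‖ ^ 2 ≤ (N : ℝ) ^ 2 := fun x => pow_le_pow_left₀ (norm_nonneg _) (RV_norm hf hw N x) 2
  have h1 := cov_inv hΛ (RV_sq_meas f w N) (fun x => by positivity) hbd
  -- the blocks
  set α : ℕ → ℝ := fun j => Λ⁻¹ + j * θ with hα
  have hii : ∀ a b : ℝ, IntervalIntegrable (fun l => ‖RV f w N (l⁻¹)‖ ^ 2) volume a b := by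
    intro a b
    apply ii_of_bdd ((RV_sq_meas f w N).comp measurable_inv) (B := (N : ℝ) ^ 2)
    intro l
    show |‖RV f w N (l⁻¹)‖ ^ 2| ≤ (N : ℝ) ^ 2
    rw [abs_of_nonneg (by positivity)]
    exact hbd _
  have hsum := intervalIntegral.sum_integral_adjacent_intervals (f := fun l => ‖RV f w N (l⁻¹)‖ ^ 2) (μ := volume)
    (a := α) (n := J) (fun k _ => hii _ _)
  have hα0 : α 0 = Λ⁻¹ := by rw [hα]; simp
  have hαJ : α J = Λ := by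
    show Λ⁻¹ + J * θ = Λ
    rw [hJθ, hL]; ring
  have hαs : ∀ j, α (j + 1) - α j = θ := by
    intro j
    show (Λ⁻¹ + ((j + 1 : ℕ) : ℝ) * θ) - (Λ⁻¹ + j * θ) = θ
    push_cast; ring
  rw [hα0, hαJ] at hsum
  set Q : ℝ := ∑ m ∈ Icc 1 M, (θ ^ 2 + θ * (θ + 1) / m) with hQ
  have hQ1 : Q ≤ 3 * θ ^ 2 * M + 2 * θ * K := by
    have e : Q = θ ^ 2 * M + θ * (θ + 1) * ∑ m ∈ Icc 1 M, (1 : ℝ) / m := by
      rw [hQ, sum_add_distrib, sum_const, Nat.card_Icc, Nat.add_sub_cancel, nsmul_eq_mul, mul_sum]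
      congr 1
      · ring
      · apply sum_congr rfl
        intro m _
        ring
    have h2 := inv_sum hθ0 hK M
    have h3 : 0 ≤ ∑ m ∈ Icc 1 M, (1 : ℝ) / m := sum_nonneg fun m _ => by positivity
    have h4 : θ * (θ + 1) ≤ 2 * θ := by nlinarith
    have h5 : θ * (θ + 1) * ∑ m ∈ Icc 1 M, (1 : ℝ) / m ≤ 2 * θ * (K + θ * M) :=
      mul_le_mul h4 h2 h3 (by positivity)
    rw [e]
    linarith
  have hblk : ∀ j ∈ range J, ∫ l in α j..α (j + 1), ‖RV f w N (l⁻¹)‖ ^ 2 ≤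
      3 * Λ ^ 2 * θ + 3 * ((Λ + 1) ^ 2 * (ε' * M ^ 2)) + 3 * M * Q := by
    intro j hj
    rw [mem_range] at hj
    have haj : Λ⁻¹ ≤ α j := by
      show Λ⁻¹ ≤ Λ⁻¹ + j * θ
      have : 0 ≤ (j : ℝ) * θ := by positivity
      linarith
    have hbj : α (j + 1) ≤ Λ := by
      rw [← hαJ]
      show Λ⁻¹ + ((j + 1 : ℕ) : ℝ) * θ ≤ Λ⁻¹ + J * θ
      have : ((j + 1 : ℕ) : ℝ) ≤ J := by exact_mod_cast hj
      have := mul_le_mul_of_nonneg_right this hθ0.le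
      linarith
    have hab : α j ≤ α (j + 1) := by linarith [hαs j]
    have hajΛ : α j ≤ Λ := hab.trans hbj
    have h2 := block (B := (Λ + 1) ^ 2 * (ε' * M ^ 2)) hf hw hΛ haj hbj hab (by rw [hαs]; exact hθ1) hM1 (by
      -- the bound for the fixed function
      set G : ℝ → ℂ := fun x => ((Λ + 1 : ℝ) : ℂ)⁻¹ * WW N w (α j) x with hG
      have hGm : Measurable G := (WW_meas N w (α j)).const_mul _
      have hG1 : ∀ x, ‖G x‖ ≤ 1 := by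
        intro x
        rw [hG]
        show ‖((Λ + 1 : ℝ) : ℂ)⁻¹ * WW N w (α j) x‖ ≤ 1
        rw [norm_mul, norm_inv, Complex.norm_real, Real.norm_eq_abs, abs_of_pos (by linarith),
          inv_mul_le_iff₀ (by linarith), mul_one]
        have := WW_norm N hw (by linarith : 0 ≤ α j) x
        linarith
      have h3 := H G hGm hG1
      have e : ∀ l : ℝ, ‖∑ m ∈ Icc 1 M, (f (m : ℕ) : ℂ) * WW N w (α j) (l * m)‖ ^ 2
          = (Λ + 1) ^ 2 * ‖∑ m ∈ Icc 1 M, (f (m : ℕ) : ℂ) * G (l * m)‖ ^ 2 := by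
        intro l
        have e2 : ∑ m ∈ Icc 1 M, (f (m : ℕ) : ℂ) * G (l * m)
            = ((Λ + 1 : ℝ) : ℂ)⁻¹ * ∑ m ∈ Icc 1 M, (f (m : ℕ) : ℂ) * WW N w (α j) (l * m) := by
          rw [mul_sum]
          apply sum_congr rfl
          intro m _
          rw [hG]
          ring
        rw [e2, norm_mul, norm_inv, Complex.norm_real, Real.norm_eq_abs, abs_of_pos (by linarith : (0 : ℝ) < Λ + 1), mul_pow,
          ← mul_assoc, ← mul_pow, mul_inv_cancel₀ (by linarith : Λ + 1 ≠ 0), one_pow, one_mul]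
      simp_rw [e]
      rw [intervalIntegral.integral_const_mul]
      apply mul_le_mul_of_nonneg_left _ (by positivity)
      refine le_trans ?_ h3
      have hGi : ∀ a b : ℝ, IntervalIntegrable (fun l => ‖∑ m ∈ Icc 1 M, (f (m : ℕ) : ℂ) * G (l * m)‖ ^ 2) volume a b := by
        intro a b
        refine ii_of_bdd (B := ((Icc 1 M).card : ℝ) ^ 2) ?_ ?_ _ _
        · apply meas_sum
          intro m
          exact (hGm.comp (measurable_id.mul_const _)).const_mul _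
        · intro l
          rw [abs_of_nonneg (by positivity)]
          apply norm_sum_sq_le
          intro m
          rw [norm_mul]
          refine mul_le_one₀ ?_ (norm_nonneg _) (hG1 _)
          rw [Complex.norm_real, Real.norm_eq_abs]
          exact hf _
      exact intervalIntegral.integral_mono_interval haj hab hbj
        (Filter.Eventually.of_forall fun l => by positivity) (hGi _ _))
    rw [hαs] at h2
    exact h2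
  have h2 : ∫ l in Λ⁻¹..Λ, ‖RV f w N (l⁻¹)‖ ^ 2 ≤
      J * (3 * Λ ^ 2 * θ + 3 * ((Λ + 1) ^ 2 * (ε' * M ^ 2)) + 3 * M * Q) := by
    rw [← hsum]
    calc ∑ j ∈ range J, ∫ l in α j..α (j + 1), ‖RV f w N (l⁻¹)‖ ^ 2
        ≤ ∑ _j ∈ range J, (3 * Λ ^ 2 * θ + 3 * ((Λ + 1) ^ 2 * (ε' * M ^ 2)) + 3 * M * Q) := sum_le_sum hblk
      _ = _ := by rw [sum_const, card_range, nsmul_eq_mul]
  have h3 : J * (3 * Λ ^ 2 * θ + 3 * ((Λ + 1) ^ 2 * (ε' * M ^ 2)) + 3 * M * Q)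
      ≤ 3 * Λ ^ 3 + 3 * J * (Λ + 1) ^ 2 * ε' * M ^ 2 + 3 * M * (Λ * (3 * θ * M + 2 * K)) := by
    have h4 : J * (3 * Λ ^ 2 * θ) ≤ 3 * Λ ^ 3 := by
      calc J * (3 * Λ ^ 2 * θ) = 3 * Λ ^ 2 * (J * θ) := by ring
        _ ≤ 3 * Λ ^ 2 * Λ := by rw [hJθ]; exact mul_le_mul_of_nonneg_left hLΛ (by positivity)
        _ = 3 * Λ ^ 3 := by ring
    have h5 : J * (3 * M * Q) ≤ 3 * M * (Λ * (3 * θ * M + 2 * K)) := by
      calc J * (3 * M * Q) ≤ J * (3 * M * (3 * θ ^ 2 * M + 2 * θ * K)) := by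
            apply mul_le_mul_of_nonneg_left _ hJ0.le
            exact mul_le_mul_of_nonneg_left hQ1 (by positivity)
        _ = 3 * M * ((J * θ) * (3 * θ * M + 2 * K)) := by ring
        _ ≤ 3 * M * (Λ * (3 * θ * M + 2 * K)) := by
            rw [hJθ]
            apply mul_le_mul_of_nonneg_left _ (by positivity)
            exact mul_le_mul_of_nonneg_right hLΛ (by positivity)
    calc J * (3 * Λ ^ 2 * θ + 3 * ((Λ + 1) ^ 2 * (ε' * M ^ 2)) + 3 * M * Q)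
        = J * (3 * Λ ^ 2 * θ) + 3 * J * (Λ + 1) ^ 2 * ε' * M ^ 2 + J * (3 * M * Q) := by ring
      _ ≤ _ := by linarith
  exact numeric hΛ0 hε hθ0 hJ0 (Nat.cast_nonneg K) (Nat.cast_nonneg M) hN1' hM2 rfl hθ2 hNa hNb h1 (h2.trans h3)

/-- the values of the invariant sets at the integer parts of the dilates, with arbitrary weights -/
theorem rev_main {s : ℤ} (hs : s = 1 ∨ s = -1) {Λ ε : ℝ} (hΛ : 1 < Λ) (hε : 0 < ε) : ∃ N0 : ℕ, 1 ≤ N0 ∧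
    ∀ N : ℕ, N0 ≤ N → ∀ S : Set ℤ, Inv 1 S → ∀ δ : ℝ, HD s S δ → ∀ w : ℕ → ℂ, (∀ n, ‖w n‖ ≤ 1) →
      ∫ l in Λ⁻¹..Λ, ‖∑ n ∈ Icc 1 N, w n * (bal s S δ ⌊l * n⌋ : ℂ)‖ ^ 2 ≤ ε * N ^ 2 := by
  have hΛ0 : 0 < Λ := by linarith
  obtain ⟨ε', hε', N1, hN1, H⟩ := reversal hΛ hε
  obtain ⟨N0, hN0, HM⟩ := main_lin hs hΛ hε'
  refine ⟨max N0 N1, hN1.trans (le_max_right _ _), fun N hN S hS δ hδ w hw => ?_⟩
  obtain ⟨d0, d1⟩ := HD_mem hs hδ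
  have hNR : (1 : ℝ) ≤ N := by exact_mod_cast hN1.trans ((le_max_right _ _).trans hN)
  have h1 : Λ * N ≤ (⌈Λ * N⌉₊ : ℝ) := Nat.le_ceil _
  have h2 : (⌈Λ * N⌉₊ : ℝ) ≤ 2 * (Λ * N) := by
    have h3 := Nat.ceil_lt_add_one (a := Λ * N) (by positivity)
    have h4 : 1 ≤ Λ * N := by nlinarith
    linarith
  have h3 : N0 ≤ ⌈Λ * N⌉₊ := by
    have h4 : (N0 : ℝ) ≤ ⌈Λ * N⌉₊ := by
      have h5 : (N0 : ℝ) ≤ N := by exact_mod_cast (le_max_left _ _).trans hN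
      nlinarith
    exact_mod_cast h4
  refine H (bal s S δ) (bal_abs d0 d1) N ((le_max_right _ _).trans hN) ⌈Λ * N⌉₊ h1 h2 (fun G hG hG1 => ?_) w hw
  have h5 := HM ⌈Λ * N⌉₊ h3 S hS δ hδ 0 (fun _ => 1) ⟨fun _ => by simp, fun _ _ _ => by simp⟩ G hG hG1
  have e : ∀ l : ℝ, ∑ m ∈ Icc 1 ⌈Λ * N⌉₊, (bal s S δ (m : ℕ) : ℂ) * G (l * m)
      = ∑ n ∈ Icc 1 ⌈Λ * N⌉₊, tw (bal s S δ) 0 (n : ℤ) * 1 * G (l * n) := by
    intro l
    apply sum_congr rfl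
    intro m _
    unfold tw
    simp
  simp_rw [e]
  exact h5

end Pool.Agent.H623.RD
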