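import Pool.Agent.H623.RD.E

/-! Real dilates, part F: several dilates at once. -/

set_option autoImplicit false

namespace Pool.Agent.H623.RD

open MeasureTheory Finset
open Pool.Agent.H499R2.ND (Inv HD)
open Pool.Agent.W41 Pool.Agent.W41.FU Pool.Agent.W41.MU

/-- the data of an invariant set: a side, the set, its density -/
abbrev Dt : Type := ℤ × Set ℤ × ℝ

def Ok (e : Dt) : Prop := (e.1 = 1 ∨ e.1 = -1) ∧ Inv 1 e.2.1 ∧ HD e.1 e.2.1 e.2.2

/-- the measure on the interval of the dilates -/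
noncomputable def mu (Λ : ℝ) : Measure ℝ := volume.restrict (Set.Icc Λ⁻¹ Λ)

instance (Λ : ℝ) : IsFiniteMeasure (mu Λ) := by
  unfold mu
  infer_instance

theorem mu_univ {Λ : ℝ} (hΛ : 1 < Λ) : mu Λ Set.univ ≤ ENNReal.ofReal Λ := by
  unfold mu
  rw [Measure.restrict_apply MeasurableSet.univ, Set.univ_inter, Real.volume_Icc]
  apply ENNReal.ofReal_le_ofReal
  have : 0 < Λ⁻¹ := inv_pos.2 (by linarith)
  linarith

theorem ind_meas (s : ℤ) (S : Set ℤ) {α : Type*} [MeasurableSpace α] {g : α → ℝ} (hg : Measurable g) :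
    Measurable (fun x => ind s S ⌊g x⌋) :=
  (measurable_from_top (f := ind s S)).comp (Int.measurable_floor.comp hg)

/-- the bound for one dilate -/
theorem one_dil {Λ ε : ℝ} (hΛ : 1 < Λ) (hε : 0 < ε) : ∃ N0 : ℕ, 1 ≤ N0 ∧
    ∀ N : ℕ, N0 ≤ N → ∀ e : Dt, Ok e → ∀ w : ℕ → ℂ, (∀ n, ‖w n‖ ≤ 1) →
      ∫⁻ l, ENNReal.ofReal (‖∑ n ∈ Icc 1 N, w n * ((ind e.1 e.2.1 ⌊l * n⌋ : ℂ) - e.2.2)‖ ^ 2) ∂(mu Λ)
        ≤ ENNReal.ofReal (ε * N ^ 2) := by
  obtain ⟨N1, hN1, H1⟩ := rev_main (s := 1) (Or.inl rfl) hΛ hε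
  obtain ⟨N2, hN2, H2⟩ := rev_main (s := -1) (Or.inr rfl) hΛ hε
  refine ⟨max N1 N2, hN1.trans (le_max_left _ _), fun N hN e he w hw => ?_⟩
  obtain ⟨hs, hS, hD⟩ := he
  obtain ⟨d0, d1⟩ := HD_mem hs hD
  have h : ∫ l in Λ⁻¹..Λ, ‖∑ n ∈ Icc 1 N, w n * (bal e.1 e.2.1 e.2.2 ⌊l * n⌋ : ℂ)‖ ^ 2 ≤ ε * N ^ 2 := by
    rcases hs with h | h
    · rw [h]; rw [h] at hD
      exact H1 N ((le_max_left _ _).trans hN) _ hS _ hD w hw
    · rw [h]; rw [h] at hD
      exact H2 N ((le_max_right _ _).trans hN) _ hS _ hD w hw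
  have hΛ1 : Λ⁻¹ ≤ Λ := (inv_le_one_of_one_le₀ hΛ.le).trans hΛ.le
  rw [intervalIntegral.integral_of_le hΛ1, ← integral_Icc_eq_integral_Ioc] at h
  have hint : Integrable (fun l => ‖RV (bal e.1 e.2.1 e.2.2) w N l‖ ^ 2) (mu Λ) := by
    have h1 := ii_of_bdd (RV_sq_meas (bal e.1 e.2.1 e.2.2) w N) (B := (N : ℝ) ^ 2) (fun x => by
      rw [abs_of_nonneg (by positivity)]
      exact pow_le_pow_left₀ (norm_nonneg _) (RV_norm (bal_abs d0 d1) hw N _) 2) Λ⁻¹ Λ
    rw [intervalIntegrable_iff_integrableOn_Ioc_of_le hΛ1, ← integrableOn_Icc_iff_integrableOn_Ioc] at h1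
    exact h1
  have e1 : ∀ l : ℝ, ‖∑ n ∈ Icc 1 N, w n * ((ind e.1 e.2.1 ⌊l * n⌋ : ℂ) - e.2.2)‖ ^ 2
      = ‖RV (bal e.1 e.2.1 e.2.2) w N l‖ ^ 2 := by
    intro l
    unfold RV bal
    congr 2
    apply sum_congr rfl
    intro n _
    push_cast
    rfl
  simp_rw [e1]
  rw [← ofReal_integral_eq_lintegral_ofReal hint (Filter.Eventually.of_forall fun l => by positivity)]
  exact ENNReal.ofReal_le_ofReal h

/-- the deviation for several dilates -/
noncomputable def DD {k : ℕ} (e : Fin k → Dt) (w : ℕ → ℂ) (N : ℕ) (x : Fin k → ℝ) : ℂ :=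
  ∑ n ∈ Icc 1 N, w n * ((∏ i, (ind (e i).1 (e i).2.1 ⌊x i * n⌋ : ℂ)) - ∏ i, ((e i).2.2 : ℂ))

theorem DD_meas {k : ℕ} (e : Fin k → Dt) (w : ℕ → ℂ) (N : ℕ) : Measurable (DD e w N) := by
  unfold DD
  apply Finset.measurable_sum
  intro n _
  apply Measurable.const_mul
  apply Measurable.sub_const
  apply Finset.measurable_prod
  intro i _
  exact Complex.measurable_ofReal.comp (ind_meas _ _ ((measurable_pi_apply i).mul_const _))

theorem prod_ind_norm {k : ℕ} (e : Fin k → Dt) (z : Fin k → ℤ) : ‖∏ i, (ind (e i).1 (e i).2.1 (z i) : ℂ)‖ ≤ 1 := by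
  rw [norm_prod]
  apply prod_le_one (fun i _ => norm_nonneg _)
  intro i _
  rw [Complex.norm_real, Real.norm_eq_abs, abs_of_nonneg (ind_nonneg _ _ _)]
  exact ind_le_one _ _ _

/-- SEVERAL DILATES -/
theorem multi {Λ : ℝ} (hΛ : 1 < Λ) : ∀ (k : ℕ) {ε : ℝ}, 0 < ε → ∃ N0 : ℕ, 1 ≤ N0 ∧
    ∀ N : ℕ, N0 ≤ N → ∀ e : Fin k → Dt, (∀ i, Ok (e i)) → ∀ w : ℕ → ℂ, (∀ n, ‖w n‖ ≤ 1) →
      ∫⁻ x, ENNReal.ofReal (‖DD e w N x‖ ^ 2) ∂(Measure.pi fun _ : Fin k => mu Λ)
        ≤ ENNReal.ofReal (ε * N ^ 2)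
  | 0, ε, hε => by
    refine ⟨1, le_rfl, fun N hN e he w hw => ?_⟩
    have h : ∀ x : Fin 0 → ℝ, DD e w N x = 0 := by
      intro x
      unfold DD
      simp
    simp_rw [h]
    simp
  | k + 1, ε, hε => by
    have hΛ0 : 0 < Λ := by linarith
    obtain ⟨N1, hN1, H1⟩ := one_dil hΛ (ε := ε / (4 * Λ ^ k)) (by positivity)
    obtain ⟨N2, hN2, H2⟩ := multi hΛ k (ε := ε / (4 * Λ)) (by positivity)
    refine ⟨max N1 N2, hN1.trans (le_max_left _ _), fun N hN e he w hw => ?_⟩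
    set e' : Fin k → Dt := fun j => e j.succ with he'
    set GA : ℝ × (Fin k → ℝ) → ℝ := fun p =>
      ‖∑ n ∈ Icc 1 N, (w n * ∏ j, (ind (e' j).1 (e' j).2.1 ⌊p.2 j * n⌋ : ℂ))
        * ((ind (e 0).1 (e 0).2.1 ⌊p.1 * n⌋ : ℂ) - (e 0).2.2)‖ ^ 2 with hGA
    set GB : ℝ × (Fin k → ℝ) → ℝ := fun p => ‖DD e' w N p.2‖ ^ 2 with hGB
    have hGAm : Measurable GA := by
      apply Measurable.pow_const
      apply Measurable.norm
      apply Finset.measurable_sum
      intro n _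
      apply Measurable.mul
      · apply Measurable.const_mul
        apply Finset.measurable_prod
        intro j _
        exact Complex.measurable_ofReal.comp (ind_meas _ _ (((measurable_pi_apply j).comp measurable_snd).mul_const _))
      · apply Measurable.sub_const
        exact Complex.measurable_ofReal.comp (ind_meas _ _ (measurable_fst.mul_const _))
    have hGBm : Measurable GB := ((DD_meas e' w N).comp measurable_snd).norm.pow_const 2
    obtain ⟨d0, d1⟩ := HD_mem (he 0).1 (he 0).2.2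
    have hpt : ∀ x : Fin (k + 1) → ℝ, ENNReal.ofReal (‖DD e w N x‖ ^ 2) ≤
        ENNReal.ofReal (2 * GA (x 0, fun j => x j.succ)) + ENNReal.ofReal (2 * GB (x 0, fun j => x j.succ)) := by
      intro x
      rw [← ENNReal.ofReal_add (by positivity) (by positivity)]
      apply ENNReal.ofReal_le_ofReal
      set z1 := ∑ n ∈ Icc 1 N, (w n * ∏ j, (ind (e' j).1 (e' j).2.1 ⌊x j.succ * n⌋ : ℂ))
        * ((ind (e 0).1 (e 0).2.1 ⌊x 0 * n⌋ : ℂ) - (e 0).2.2) with hz1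
      set z2 := DD e' w N (fun j => x j.succ) with hz2
      have h1 : DD e w N x = z1 + ((e 0).2.2 : ℂ) * z2 := by
        rw [hz1, hz2]
        unfold DD
        rw [mul_sum, ← sum_add_distrib]
        apply sum_congr rfl
        intro n _
        rw [Fin.prod_univ_succ, Fin.prod_univ_succ]
        ring
      have h2 : ‖((e 0).2.2 : ℂ) * z2‖ ≤ ‖z2‖ := by
        rw [norm_mul, Complex.norm_real, Real.norm_eq_abs, abs_of_nonneg d0]
        exact mul_le_of_le_one_left (norm_nonneg _) d1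
      have h3 : ‖DD e w N x‖ ≤ ‖z1‖ + ‖z2‖ := by
        rw [h1]
        exact (norm_add_le _ _).trans (by linarith)
      show ‖DD e w N x‖ ^ 2 ≤ 2 * ‖z1‖ ^ 2 + 2 * ‖z2‖ ^ 2
      have h4 : ‖DD e w N x‖ ^ 2 ≤ (‖z1‖ + ‖z2‖) ^ 2 := pow_le_pow_left₀ (norm_nonneg _) h3 2
      nlinarith [sq_nonneg (‖z1‖ - ‖z2‖)]
    have hmp := measurePreserving_piFinSuccAbove (fun _ : Fin (k + 1) => mu Λ) 0
    have hcomp : ∀ G : ℝ × (Fin k → ℝ) → ENNReal, Measurable G →
        ∫⁻ x, G (x 0, fun j => x j.succ) ∂(Measure.pi fun _ : Fin (k + 1) => mu Λ)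
          = ∫⁻ p, G p ∂((mu Λ).prod (Measure.pi fun _ : Fin k => mu Λ)) := by
      intro G hG
      exact hmp.lintegral_comp hG
    have hmassk : (Measure.pi fun _ : Fin k => mu Λ) Set.univ ≤ ENNReal.ofReal (Λ ^ k) := by
      rw [Measure.pi_univ, prod_const, card_univ, Fintype.card_fin, ENNReal.ofReal_pow hΛ0.le]
      exact pow_le_pow_left' (mu_univ hΛ) k
    have hA : ∫⁻ p, ENNReal.ofReal (2 * GA p) ∂((mu Λ).prod (Measure.pi fun _ : Fin k => mu Λ))
        ≤ ENNReal.ofReal (ε / 2 * N ^ 2) := by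
      rw [lintegral_prod_symm _ (hGAm.const_mul 2).ennreal_ofReal.aemeasurable]
      calc ∫⁻ y, ∫⁻ x, ENNReal.ofReal (2 * GA (x, y)) ∂(mu Λ) ∂(Measure.pi fun _ : Fin k => mu Λ)
          ≤ ∫⁻ _y, ENNReal.ofReal (2 * (ε / (4 * Λ ^ k) * N ^ 2)) ∂(Measure.pi fun _ : Fin k => mu Λ) := by
            apply lintegral_mono
            intro y
            have h1 := H1 N ((le_max_left _ _).trans hN) (e 0) (he 0)
              (fun n => w n * ∏ j, (ind (e' j).1 (e' j).2.1 ⌊y j * n⌋ : ℂ)) (fun n => by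
                rw [norm_mul]
                exact mul_le_one₀ (hw n) (norm_nonneg _) (prod_ind_norm e' _))
            calc ∫⁻ x, ENNReal.ofReal (2 * GA (x, y)) ∂(mu Λ)
                = ENNReal.ofReal 2 * ∫⁻ x, ENNReal.ofReal (GA (x, y)) ∂(mu Λ) := by
                  rw [← lintegral_const_mul' _ _ ENNReal.ofReal_ne_top]
                  apply lintegral_congr
                  intro x
                  rw [ENNReal.ofReal_mul (by norm_num)]
              _ ≤ ENNReal.ofReal 2 * ENNReal.ofReal (ε / (4 * Λ ^ k) * N ^ 2) := by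
                  gcongr
              _ = _ := by rw [← ENNReal.ofReal_mul (by norm_num)]
        _ = ENNReal.ofReal (2 * (ε / (4 * Λ ^ k) * N ^ 2)) * (Measure.pi fun _ : Fin k => mu Λ) Set.univ := by
            rw [lintegral_const]
        _ ≤ ENNReal.ofReal (2 * (ε / (4 * Λ ^ k) * N ^ 2)) * ENNReal.ofReal (Λ ^ k) := by gcongr
        _ = ENNReal.ofReal (ε / 2 * N ^ 2) := by
            rw [← ENNReal.ofReal_mul (by positivity)]
            congr 1
            field_simp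
            ring
    have hB : ∫⁻ p, ENNReal.ofReal (2 * GB p) ∂((mu Λ).prod (Measure.pi fun _ : Fin k => mu Λ))
        ≤ ENNReal.ofReal (ε / 2 * N ^ 2) := by
      rw [lintegral_prod _ (hGBm.const_mul 2).ennreal_ofReal.aemeasurable]
      have h1 := H2 N ((le_max_right _ _).trans hN) e' (fun j => he j.succ) w hw
      calc ∫⁻ x, ∫⁻ y, ENNReal.ofReal (2 * GB (x, y)) ∂(Measure.pi fun _ : Fin k => mu Λ) ∂(mu Λ)
          ≤ ∫⁻ _x, ENNReal.ofReal (2 * (ε / (4 * Λ) * N ^ 2)) ∂(mu Λ) := by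
            apply lintegral_mono
            intro x
            calc ∫⁻ y, ENNReal.ofReal (2 * GB (x, y)) ∂(Measure.pi fun _ : Fin k => mu Λ)
                = ENNReal.ofReal 2 * ∫⁻ y, ENNReal.ofReal (‖DD e' w N y‖ ^ 2) ∂(Measure.pi fun _ : Fin k => mu Λ) := by
                  rw [← lintegral_const_mul' _ _ ENNReal.ofReal_ne_top]
                  apply lintegral_congr
                  intro y
                  rw [← ENNReal.ofReal_mul (by norm_num)]
              _ ≤ ENNReal.ofReal 2 * ENNReal.ofReal (ε / (4 * Λ) * N ^ 2) := by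
                  gcongr
              _ = _ := by rw [← ENNReal.ofReal_mul (by norm_num)]
        _ = ENNReal.ofReal (2 * (ε / (4 * Λ) * N ^ 2)) * mu Λ Set.univ := by rw [lintegral_const]
        _ ≤ ENNReal.ofReal (2 * (ε / (4 * Λ) * N ^ 2)) * ENNReal.ofReal Λ := by
            gcongr
            exact mu_univ hΛ
        _ = ENNReal.ofReal (ε / 2 * N ^ 2) := by
            rw [← ENNReal.ofReal_mul (by positivity)]
            congr 1
            field_simp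
            ring
    calc ∫⁻ x, ENNReal.ofReal (‖DD e w N x‖ ^ 2) ∂(Measure.pi fun _ : Fin (k + 1) => mu Λ)
        ≤ ∫⁻ x, (ENNReal.ofReal (2 * GA (x 0, fun j => x j.succ)) + ENNReal.ofReal (2 * GB (x 0, fun j => x j.succ)))
            ∂(Measure.pi fun _ : Fin (k + 1) => mu Λ) := lintegral_mono hpt
      _ = ∫⁻ p, (ENNReal.ofReal (2 * GA p) + ENNReal.ofReal (2 * GB p))
            ∂((mu Λ).prod (Measure.pi fun _ : Fin k => mu Λ)) :=
          hcomp (fun p => ENNReal.ofReal (2 * GA p) + ENNReal.ofReal (2 * GB p))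
            ((hGAm.const_mul 2).ennreal_ofReal.add (hGBm.const_mul 2).ennreal_ofReal)
      _ = ∫⁻ p, ENNReal.ofReal (2 * GA p) ∂((mu Λ).prod (Measure.pi fun _ : Fin k => mu Λ))
          + ∫⁻ p, ENNReal.ofReal (2 * GB p) ∂((mu Λ).prod (Measure.pi fun _ : Fin k => mu Λ)) :=
          lintegral_add_left (hGAm.const_mul 2).ennreal_ofReal _
      _ ≤ ENNReal.ofReal (ε / 2 * N ^ 2) + ENNReal.ofReal (ε / 2 * N ^ 2) := add_le_add hA hB
      _ = ENNReal.ofReal (ε * N ^ 2) := by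
          rw [← ENNReal.ofReal_add (by positivity) (by positivity)]
          congr 1
          ring

/-- the form with an exceptional set, for fixed invariant sets -/
theorem multi_dev {Λ : ℝ} (hΛ : 1 < Λ) (k : ℕ) {ε η : ℝ} (hε : 0 < ε) (hη : 0 < η) : ∃ N0 : ℕ, 1 ≤ N0 ∧
    ∀ N : ℕ, N0 ≤ N → ∀ e : Fin k → Dt, (∀ i, Ok (e i)) → ∀ w : ℕ → ℂ, (∀ n, ‖w n‖ ≤ 1) →
      (Measure.pi fun _ : Fin k => mu Λ) {x | ε * N ≤ ‖DD e w N x‖} ≤ ENNReal.ofReal η := by
  obtain ⟨N0, hN0, H⟩ := multi hΛ k (ε := ε ^ 2 * η) (by positivity)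
  refine ⟨N0, hN0, fun N hN e he w hw => ?_⟩
  have hNR : (0 : ℝ) < N := by exact_mod_cast (by omega : 0 < N)
  have h1 := H N hN e he w hw
  have h2 := mul_meas_ge_le_lintegral₀ (μ := Measure.pi fun _ : Fin k => mu Λ)
    (f := fun x => ENNReal.ofReal (‖DD e w N x‖ ^ 2)) ((DD_meas e w N).norm.pow_const 2).ennreal_ofReal.aemeasurable
    (ENNReal.ofReal ((ε * N) ^ 2))
  have h3 : {x | ε * N ≤ ‖DD e w N x‖} ⊆ {x | ENNReal.ofReal ((ε * N) ^ 2) ≤ ENNReal.ofReal (‖DD e w N x‖ ^ 2)} := by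
    intro x hx
    exact ENNReal.ofReal_le_ofReal (pow_le_pow_left₀ (by positivity) hx 2)
  have h4 : ENNReal.ofReal ((ε * N) ^ 2) * (Measure.pi fun _ : Fin k => mu Λ) {x | ε * N ≤ ‖DD e w N x‖}
      ≤ ENNReal.ofReal ((ε * N) ^ 2) * ENNReal.ofReal η := by
    calc _ ≤ ENNReal.ofReal ((ε * N) ^ 2) * (Measure.pi fun _ : Fin k => mu Λ)
          {x | ENNReal.ofReal ((ε * N) ^ 2) ≤ ENNReal.ofReal (‖DD e w N x‖ ^ 2)} := by gcongr
      _ ≤ _ := h2
      _ ≤ ENNReal.ofReal (ε ^ 2 * η * N ^ 2) := h1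
      _ = _ := by
        rw [← ENNReal.ofReal_mul (by positivity)]
        congr 1
        ring
  exact (ENNReal.mul_le_mul_iff_right (by
    rw [Ne, ENNReal.ofReal_eq_zero, not_le]; positivity) ENNReal.ofReal_ne_top).1 h4

end Pool.Agent.H623.RD
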