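import Pool.Agent.H623.RD.F
import Pool.Agent.H623.TG.J

/-! Real dilates, part G: all the invariant sets at once. -/

set_option autoImplicit false

namespace Pool.Agent.H623.RD

open MeasureTheory Finset Filter Topology
open Pool.Agent.H499R2.ND
open Pool.Agent.W41 Pool.Agent.W41.FU Pool.Agent.W41.MU
open Pool.Agent.H623.TG (cF_mono cF_union)

theorem HD_univ {s : ℤ} (hs : s = 1 ∨ s = -1) : HD s Set.univ 1 := by
  obtain ⟨l, -, -, hl⟩ := dens_side (d := 1) odd_one (by norm_num) hs (S := Set.univ) (fun x => by simp)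
  have h1 := cF_tendsto hs hl
  have h2 : Tendsto (fun N : ℕ => (cF s Set.univ N : ℝ) / N) atTop (𝓝 1) := by
    refine tendsto_const_nhds.congr' ?_
    filter_upwards [eventually_gt_atTop 0] with N hN
    have : cF s Set.univ N = N := by
      unfold cF
      simp
    rw [this, div_self (by exact_mod_cast hN.ne')]
  have := tendsto_nhds_unique h1 h2
  rwa [this] at hl

theorem dens_close {s : ℤ} (hs : s = 1 ∨ s = -1) {S C U : Set ℤ} {δ δC δU : ℝ} (h : HD s S δ) (hC : HD s C δC)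
    (hU : HD s U δU) (e : S ∩ U = C) : |δ - δC| ≤ 1 - δU := by
  have t1 := cF_tendsto hs h
  have t2 := cF_tendsto hs hC
  have t3 := cF_tendsto hs hU
  have l1 : δC ≤ δ := by
    refine le_of_tendsto_of_tendsto t2 t1 (Eventually.of_forall fun N => ?_)
    simp only
    apply div_le_div_of_nonneg_right _ (Nat.cast_nonneg _)
    exact_mod_cast cF_mono (N := N) (fun n _ _ hn => by rw [← e] at hn; exact hn.1)
  have l2 : δ ≤ δC + (1 - δU) := by
    refine le_of_tendsto_of_tendsto t1 (t2.add (tendsto_const_nhds.sub t3)) ?_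
    filter_upwards [eventually_gt_atTop 0] with N hN
    have hNR : (0 : ℝ) < N := by exact_mod_cast hN
    have h1 : cF s S N ≤ cF s (C ∪ Uᶜ) N := cF_mono (fun n _ _ hn => by
      by_cases hu : s * (n : ℤ) ∈ U
      · left; rw [← e]; exact ⟨hn, hu⟩
      · right; exact hu)
    have h2 := cF_union (s := s) C Uᶜ N
    have h3 := cF_compl s U N
    have h4 : (cF s S N : ℝ) ≤ cF s C N + (N - cF s U N) := by
      have h5 : (cF s S N : ℝ) ≤ cF s C N + cF s Uᶜ N := by exact_mod_cast h1.trans h2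
      have h6 : (cF s U N : ℝ) + cF s Uᶜ N = N := by exact_mod_cast h3
      linarith
    calc (cF s S N : ℝ) / N ≤ (cF s C N + (N - cF s U N)) / N := div_le_div_of_nonneg_right h4 hNR.le
      _ = (cF s C N : ℝ) / N + (1 - (cF s U N : ℝ) / N) := by field_simp
  rw [abs_le]
  constructor <;> linarith

theorem approx_side {s : ℤ} (hs : s = 1 ∨ s = -1) {η : ℝ} (hη : 0 < η) : ∃ DF : Finset (Set ℤ),
    (∀ C ∈ DF, Inv 1 C) ∧ ∃ U ∈ DF, ∃ δU : ℝ, HD s U δU ∧ 1 - η ≤ δU ∧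
      ∀ S : Set ℤ, Inv 1 S → S ∩ U ∈ DF := by
  classical
  obtain ⟨δc, h1, -, h3, h4⟩ := structure_d (d := 1) odd_one (by norm_num) hs
  obtain ⟨F, hF⟩ : ∃ F : Finset {a : ℤ // IsRp 1 s a}, 1 - η < ∑ a ∈ F, δc a :=
    (h4.eventually (lt_mem_nhds (show 1 - η < 1 by linarith))).exists
  set un : Finset {a : ℤ // IsRp 1 s a} → Set ℤ := fun G => {x | ∃ a ∈ G, x ∈ Mg (Td 1) (a : ℤ)} with hun
  have hinv : ∀ G, Inv 1 (un G) := by
    intro G x
    constructor
    · rintro ⟨a, ha, hx⟩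
      exact ⟨a, ha, (Mg_inv 1 a x).1 hx⟩
    · rintro ⟨a, ha, hx⟩
      exact ⟨a, ha, (Mg_inv 1 a x).2 hx⟩
  refine ⟨F.powerset.image un, ?_, un F, mem_image_of_mem _ (mem_powerset.2 subset_rfl), ?_⟩
  · intro C hC
    obtain ⟨G, _, rfl⟩ := mem_image.1 hC
    exact hinv G
  · obtain ⟨δU, -, -, hU⟩ := dens_side (d := 1) odd_one (by norm_num) hs (hinv F)
    refine ⟨δU, hU, ?_, ?_⟩
    · have t1 : Tendsto (fun N : ℕ => ∑ a ∈ F, (cF s (Mg (Td 1) (a : ℤ)) N : ℝ) / N) atTop (𝓝 (∑ a ∈ F, δc a)) :=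
        tendsto_finsetSum _ fun a _ => cF_tendsto hs (h1 a).2
      have h5 : ∑ a ∈ F, δc a ≤ δU := by
        refine le_of_tendsto_of_tendsto t1 (cF_tendsto hs hU) (Eventually.of_forall fun N => ?_)
        simp only
        rw [← sum_div]
        apply div_le_div_of_nonneg_right _ (Nat.cast_nonneg _)
        have h6 := cF_classes_R hs (hinv F) F N
        have h7 : F.filter (fun a : {a : ℤ // IsRp 1 s a} => (a : ℤ) ∈ un F) = F :=
          filter_true_of_mem fun a ha => ⟨a, ha, Mg_self _ _⟩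
        have h8 : ∑ a ∈ F, (cF s (Mg (Td 1) (a : ℤ)) N : ℝ)
            = ∑ a ∈ F.filter (fun a : {a : ℤ // IsRp 1 s a} => (a : ℤ) ∈ un F), (cF s (Mg (Td 1) (a : ℤ)) N : ℝ) := by
          rw [h7]
        rw [h8]
        refine le_trans (le_of_eq ?_) h6
        congr
      linarith
    · intro S hS
      rw [mem_image]
      refine ⟨F.filter (fun a => (a : ℤ) ∈ S), mem_powerset.2 (filter_subset _ _), ?_⟩
      ext x
      constructor
      · rintro ⟨a, ha, hx⟩
        rw [mem_filter] at ha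
        exact ⟨(inv_class hS hx).2 ha.2, a, ha.1, hx⟩
      · rintro ⟨hxS, a, ha, hx⟩
        exact ⟨a, mem_filter.2 ⟨ha, (inv_class hS hx).1 hxS⟩, hx⟩

/-- the finite family which approximates all the invariant sets -/
theorem approx {η : ℝ} (hη : 0 < η) : ∃ EF : Finset Dt, (∀ e ∈ EF, Ok e) ∧
    (∀ s : ℤ, s = 1 ∨ s = -1 → ((s, Set.univ, 1) : Dt) ∈ EF) ∧
    ∀ s : ℤ, s = 1 ∨ s = -1 → ∃ (U : Set ℤ) (δU : ℝ), ((s, U, δU) : Dt) ∈ EF ∧ 1 - η ≤ δU ∧
      ∀ (S : Set ℤ) (δ : ℝ), Inv 1 S → HD s S δ → ∃ (C : Set ℤ) (δC : ℝ), ((s, C, δC) : Dt) ∈ EF ∧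
        (∀ x : ℤ, |ind s S x - ind s C x| ≤ 1 - ind s U x) ∧ |δ - δC| ≤ η := by
  classical
  have hside : ∀ s : ℤ, s = 1 ∨ s = -1 → ∃ EF : Finset Dt, (∀ e ∈ EF, Ok e) ∧ ((s, Set.univ, 1) : Dt) ∈ EF ∧
      ∃ (U : Set ℤ) (δU : ℝ), ((s, U, δU) : Dt) ∈ EF ∧ 1 - η ≤ δU ∧
      ∀ (S : Set ℤ) (δ : ℝ), Inv 1 S → HD s S δ → ∃ (C : Set ℤ) (δC : ℝ), ((s, C, δC) : Dt) ∈ EF ∧
        (∀ x : ℤ, |ind s S x - ind s C x| ≤ 1 - ind s U x) ∧ |δ - δC| ≤ η := by
    intro s hs
    obtain ⟨DF, h1, U, hU, δU, h2, h3, h4⟩ := approx_side hs hη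
    have hd : ∀ C : Set ℤ, ∃ δ : ℝ, Inv 1 C → HD s C δ := by
      intro C
      by_cases hC : Inv 1 C
      · obtain ⟨δ, -, -, h⟩ := dens_side (d := 1) odd_one (by norm_num) hs hC
        exact ⟨δ, fun _ => h⟩
      · exact ⟨0, fun h => absurd h hC⟩
    choose dd hdd using hd
    have hUd : dd U = δU := tendsto_nhds_unique (hdd U (h1 U hU)) h2
    refine ⟨insert ((s, Set.univ, 1) : Dt) (DF.image (fun C => ((s, C, dd C) : Dt))), ?_, mem_insert_self _ _,
      U, δU, ?_, h3, ?_⟩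
    · intro e he
      rw [mem_insert] at he
      rcases he with rfl | he
      · exact ⟨hs, fun x => by simp, HD_univ hs⟩
      · obtain ⟨C, hC, rfl⟩ := mem_image.1 he
        exact ⟨hs, h1 C hC, hdd C (h1 C hC)⟩
    · rw [← hUd]
      exact mem_insert_of_mem (mem_image.2 ⟨U, hU, rfl⟩)
    · intro S δ hS hδ
      have hC := h4 S hS
      refine ⟨S ∩ U, dd (S ∩ U), mem_insert_of_mem (mem_image.2 ⟨S ∩ U, hC, rfl⟩), ?_, ?_⟩
      · intro x
        unfold ind
        by_cases hx : s * x ∈ U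
        · rw [if_pos hx]
          by_cases hxS : s * x ∈ S
          · rw [if_pos hxS, if_pos ⟨hxS, hx⟩]; simp
          · have h' : ¬ (s * x ∈ S ∩ U) := fun h => hxS h.1
            rw [if_neg hxS, if_neg h']; simp
        · have h' : ¬ (s * x ∈ S ∩ U) := fun h => hx h.2
          rw [if_neg hx, if_neg h']
          split_ifs <;> simp
      · have := dens_close hs hδ (hdd _ (h1 _ hC)) h2 rfl
        linarith
  obtain ⟨E1, a1, b1, U1, δ1, c1, d1, f1⟩ := hside 1 (Or.inl rfl)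
  obtain ⟨E2, a2, b2, U2, δ2, c2, d2, f2⟩ := hside (-1) (Or.inr rfl)
  refine ⟨E1 ∪ E2, ?_, ?_, ?_⟩
  · intro e he
    rcases mem_union.1 he with h | h
    · exact a1 e h
    · exact a2 e h
  · rintro s (rfl | rfl)
    · exact mem_union_left _ b1
    · exact mem_union_right _ b2
  · rintro s (rfl | rfl)
    · refine ⟨U1, δ1, mem_union_left _ c1, d1, fun S δ hS hδ => ?_⟩
      obtain ⟨C, δC, h1, h2⟩ := f1 S δ hS hδ
      exact ⟨C, δC, mem_union_left _ h1, h2⟩
    · refine ⟨U2, δ2, mem_union_right _ c2, d2, fun S δ hS hδ => ?_⟩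
      obtain ⟨C, δC, h1, h2⟩ := f2 S δ hS hδ
      exact ⟨C, δC, mem_union_right _ h1, h2⟩

theorem prod_diff {ι : Type*} (I : Finset ι) (a b : ι → ℝ) (ha0 : ∀ i, 0 ≤ a i) (ha1 : ∀ i, a i ≤ 1)
    (hb0 : ∀ i, 0 ≤ b i) (hb1 : ∀ i, b i ≤ 1) : |∏ i ∈ I, a i - ∏ i ∈ I, b i| ≤ ∑ i ∈ I, |a i - b i| := by
  classical
  induction I using Finset.induction_on with
  | empty => simp
  | insert j I hj ih =>
    rw [prod_insert hj, prod_insert hj, sum_insert hj]
    have h1 : a j * ∏ i ∈ I, a i - b j * ∏ i ∈ I, b i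
        = (a j - b j) * ∏ i ∈ I, a i + b j * (∏ i ∈ I, a i - ∏ i ∈ I, b i) := by ring
    rw [h1]
    refine (abs_add_le _ _).trans ?_
    rw [abs_mul, abs_mul]
    have h2 : |∏ i ∈ I, a i| ≤ 1 := by
      rw [abs_of_nonneg (prod_nonneg fun i _ => ha0 i)]
      exact prod_le_one (fun i _ => ha0 i) fun i _ => ha1 i
    have h3 : |b j| ≤ 1 := by rw [abs_of_nonneg (hb0 j)]; exact hb1 j
    have h4 : |a j - b j| * |∏ i ∈ I, a i| ≤ |a j - b j| := mul_le_of_le_one_right (abs_nonneg _) h2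
    have h5 : |b j| * |∏ i ∈ I, a i - ∏ i ∈ I, b i| ≤ |∏ i ∈ I, a i - ∏ i ∈ I, b i| :=
      mul_le_of_le_one_left (abs_nonneg _) h3
    linarith

/-- ALL THE INVARIANT SETS AT ONCE -/
theorem all_sets {Λ : ℝ} (hΛ : 1 < Λ) (k : ℕ) {ε : ℝ} (hε : 0 < ε) : ∃ N0 : ℕ, 1 ≤ N0 ∧
    ∀ N : ℕ, N0 ≤ N → ∀ w : ℕ → ℂ, (∀ n, ‖w n‖ ≤ 1) →
      (Measure.pi fun _ : Fin k => mu Λ) {x | ∃ e : Fin k → Dt, (∀ i, Ok (e i)) ∧ ε * N < ‖DD e w N x‖}
        ≤ ENNReal.ofReal ε := by
  classical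
  set η : ℝ := ε / (4 * (k + 1)) with hη
  have hη0 : 0 < η := by positivity
  obtain ⟨EF, hOk, huniv, happ⟩ := approx hη0
  set PF : Finset (Fin k → Dt) := Fintype.piFinset fun _ => EF with hPF
  obtain ⟨N0, hN0, H⟩ := multi_dev hΛ k (ε := η) (η := ε / (2 * (PF.card + 1))) hη0 (by positivity)
  refine ⟨N0, hN0, fun N hN w hw => ?_⟩
  have hNR : (0 : ℝ) < N := by exact_mod_cast (by omega : 0 < N)
  -- the bad set
  set B : (Fin k → Dt) → (ℕ → ℂ) → Set (Fin k → ℝ) := fun e v => {x | η * N ≤ ‖DD e v N x‖} with hB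
  have hsub : {x | ∃ e : Fin k → Dt, (∀ i, Ok (e i)) ∧ ε * N < ‖DD e w N x‖}
      ⊆ ⋃ e ∈ PF, (B e w ∪ B e (fun _ => 1)) := by
    intro x hx
    by_contra hnot
    have hgood : ∀ e ∈ PF, ‖DD e w N x‖ < η * N ∧ ‖DD e (fun _ => 1) N x‖ < η * N := by
      intro e he
      constructor
      · by_contra h
        exact hnot (Set.mem_biUnion he (Or.inl (not_lt.1 h)))
      · by_contra h
        exact hnot (Set.mem_biUnion he (Or.inr (not_lt.1 h)))
    obtain ⟨e, he, hlt⟩ := hx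
    -- the approximations
    have h1 : ∀ i, ∃ (U : Set ℤ) (δU : ℝ) (C : Set ℤ) (δC : ℝ), (((e i).1, U, δU) : Dt) ∈ EF ∧ 1 - η ≤ δU ∧
        (((e i).1, C, δC) : Dt) ∈ EF ∧ (∀ z : ℤ, |ind (e i).1 (e i).2.1 z - ind (e i).1 C z| ≤ 1 - ind (e i).1 U z) ∧
        |(e i).2.2 - δC| ≤ η := by
      intro i
      obtain ⟨U, δU, h2, h3, h4⟩ := happ (e i).1 (he i).1
      obtain ⟨C, δC, h5, h6, h7⟩ := h4 (e i).2.1 (e i).2.2 (he i).2.1 (he i).2.2
      exact ⟨U, δU, C, δC, h2, h3, h5, h6, h7⟩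
    choose U δU C δC hU hU1 hC hCU hCd using h1
    set c : Fin k → Dt := fun i => ((e i).1, C i, δC i) with hc
    have hcPF : c ∈ PF := Fintype.mem_piFinset.2 fun i => hC i
    -- the complement of `U`
    have hUc : ∀ i, ∑ n ∈ Icc 1 N, (1 - ind (e i).1 (U i) ⌊x i * n⌋) ≤ 2 * η * N := by
      intro i
      set u : Fin k → Dt := fun j => if j = i then ((e i).1, U i, δU i) else (1, Set.univ, 1) with hu
      have huPF : u ∈ PF := by
        apply Fintype.mem_piFinset.2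
        intro j
        rw [hu]
        by_cases h : j = i
        · simp only [h, if_true]; exact hU i
        · simp only [h, if_false]; exact huniv 1 (Or.inl rfl)
      have h2 := (hgood u huPF).2
      have h3 : DD u (fun _ => 1) N x = ((∑ n ∈ Icc 1 N, (ind (e i).1 (U i) ⌊x i * n⌋ - δU i) : ℝ) : ℂ) := by
        unfold DD
        push_cast
        apply sum_congr rfl
        intro n _
        rw [one_mul]
        congr 1
        · rw [prod_eq_single i]
          · rw [hu]; simp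
          · intro j _ hj
            rw [hu]
            simp only [hj, if_false]
            unfold ind
            rw [if_pos (Set.mem_univ _)]
            simp
          · intro h; exact absurd (mem_univ i) h
        · rw [prod_eq_single i]
          · rw [hu]; simp
          · intro j _ hj
            rw [hu]
            simp only [hj, if_false]
            simp
          · intro h; exact absurd (mem_univ i) h
      rw [h3, Complex.norm_real, Real.norm_eq_abs] at h2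
      have h4 := (abs_lt.1 h2).1
      rw [sum_sub_distrib, sum_const, Nat.card_Icc, Nat.add_sub_cancel, nsmul_eq_mul] at h4
      rw [sum_sub_distrib, sum_const, Nat.card_Icc, Nat.add_sub_cancel, nsmul_eq_mul, mul_one]
      have h5 := mul_le_mul_of_nonneg_left (hU1 i) hNR.le
      linarith
    -- the comparison
    have hind : ∀ (f : Fin k → Dt) (n : ℕ), (∏ i, (ind (f i).1 (f i).2.1 ⌊x i * n⌋ : ℂ))
        = ((∏ i, ind (f i).1 (f i).2.1 ⌊x i * n⌋ : ℝ) : ℂ) := by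
      intro f n; push_cast; rfl
    have hden : ∀ (f : Fin k → Dt), (∏ i, ((f i).2.2 : ℂ)) = ((∏ i, (f i).2.2 : ℝ) : ℂ) := by
      intro f; push_cast; rfl
    have h4 : ‖DD e w N x - DD c w N x‖ ≤ ∑ n ∈ Icc 1 N, (∑ i, (1 - ind (e i).1 (U i) ⌊x i * n⌋) + k * η) := by
      unfold DD
      rw [← sum_sub_distrib]
      refine (norm_sum_le _ _).trans ?_
      apply sum_le_sum
      intro n _
      rw [← mul_sub, norm_mul]
      have h5 : ‖w n‖ * ‖(∏ i, (ind (e i).1 (e i).2.1 ⌊x i * n⌋ : ℂ)) - ∏ i, ((e i).2.2 : ℂ)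
          - ((∏ i, (ind (c i).1 (c i).2.1 ⌊x i * n⌋ : ℂ)) - ∏ i, ((c i).2.2 : ℂ))‖ ≤
          ‖(∏ i, (ind (e i).1 (e i).2.1 ⌊x i * n⌋ : ℂ)) - ∏ i, ((e i).2.2 : ℂ)
          - ((∏ i, (ind (c i).1 (c i).2.1 ⌊x i * n⌋ : ℂ)) - ∏ i, ((c i).2.2 : ℂ))‖ :=
        mul_le_of_le_one_left (norm_nonneg _) (hw n)
      refine h5.trans ?_
      rw [hind e, hind c, hden e, hden c, ← Complex.ofReal_sub, ← Complex.ofReal_sub, ← Complex.ofReal_sub,
        Complex.norm_real, Real.norm_eq_abs]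
      have h6 : |(∏ i, ind (e i).1 (e i).2.1 ⌊x i * n⌋ - ∏ i, (e i).2.2)
          - (∏ i, ind (c i).1 (c i).2.1 ⌊x i * n⌋ - ∏ i, (c i).2.2)|
          ≤ |∏ i, ind (e i).1 (e i).2.1 ⌊x i * n⌋ - ∏ i, ind (c i).1 (c i).2.1 ⌊x i * n⌋|
            + |∏ i, (e i).2.2 - ∏ i, (c i).2.2| := by
        have h7 : (∏ i, ind (e i).1 (e i).2.1 ⌊x i * n⌋ - ∏ i, (e i).2.2)
          - (∏ i, ind (c i).1 (c i).2.1 ⌊x i * n⌋ - ∏ i, (c i).2.2)
          = (∏ i, ind (e i).1 (e i).2.1 ⌊x i * n⌋ - ∏ i, ind (c i).1 (c i).2.1 ⌊x i * n⌋)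
            - (∏ i, (e i).2.2 - ∏ i, (c i).2.2) := by ring
        rw [h7]
        exact abs_sub _ _
      refine h6.trans (add_le_add ?_ ?_)
      · refine (prod_diff univ _ _ (fun i => ind_nonneg _ _ _) (fun i => ind_le_one _ _ _) (fun i => ind_nonneg _ _ _)
          (fun i => ind_le_one _ _ _)).trans ?_
        exact sum_le_sum fun i _ => hCU i _
      · refine (prod_diff univ _ _ (fun i => (HD_mem (he i).1 (he i).2.2).1) (fun i => (HD_mem (he i).1 (he i).2.2).2)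
          (fun i => (HD_mem (hOk _ (hC i)).1 (hOk _ (hC i)).2.2).1)
          (fun i => (HD_mem (hOk _ (hC i)).1 (hOk _ (hC i)).2.2).2)).trans ?_
        calc ∑ i, |(e i).2.2 - (c i).2.2| ≤ ∑ _i : Fin k, η := sum_le_sum fun i _ => hCd i
          _ = k * η := by rw [sum_const, card_univ, Fintype.card_fin, nsmul_eq_mul]
    have h5 : ∑ n ∈ Icc 1 N, (∑ i, (1 - ind (e i).1 (U i) ⌊x i * n⌋) + k * η) ≤ 3 * k * η * N := by
      rw [sum_add_distrib, sum_comm, sum_const, Nat.card_Icc, Nat.add_sub_cancel, nsmul_eq_mul]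
      have h6 : ∑ i, ∑ n ∈ Icc 1 N, (1 - ind (e i).1 (U i) ⌊x i * n⌋) ≤ k * (2 * η * N) := by
        calc _ ≤ ∑ _i : Fin k, 2 * η * N := sum_le_sum fun i _ => hUc i
          _ = k * (2 * η * N) := by rw [sum_const, card_univ, Fintype.card_fin, nsmul_eq_mul]
      linarith
    have h6 : ‖DD e w N x‖ ≤ ‖DD c w N x‖ + 3 * k * η * N := by
      calc ‖DD e w N x‖ = ‖DD c w N x + (DD e w N x - DD c w N x)‖ := by congr 1; ring
        _ ≤ ‖DD c w N x‖ + ‖DD e w N x - DD c w N x‖ := norm_add_le _ _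
        _ ≤ ‖DD c w N x‖ + 3 * k * η * N := by linarith
    have h7 := (hgood c hcPF).1
    have h8 : η * N + 3 * k * η * N ≤ ε * N := by
      have : η * (4 * (k + 1)) = ε := by rw [hη]; field_simp
      have h9 : η + 3 * k * η ≤ ε := by
        rw [← this]
        have : 0 ≤ (k : ℝ) * η := by positivity
        nlinarith
      nlinarith
    linarith
  calc (Measure.pi fun _ : Fin k => mu Λ) {x | ∃ e : Fin k → Dt, (∀ i, Ok (e i)) ∧ ε * N < ‖DD e w N x‖}
      ≤ (Measure.pi fun _ : Fin k => mu Λ) (⋃ e ∈ PF, (B e w ∪ B e (fun _ => 1))) := measure_mono hsub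
    _ ≤ ∑ e ∈ PF, (Measure.pi fun _ : Fin k => mu Λ) (B e w ∪ B e (fun _ => 1)) := measure_biUnion_finset_le _ _
    _ ≤ ∑ _e ∈ PF, ENNReal.ofReal (2 * (ε / (2 * (PF.card + 1)))) := by
        apply sum_le_sum
        intro e he
        have hOke : ∀ i, Ok (e i) := fun i => hOk _ (Fintype.mem_piFinset.1 he i)
        calc _ ≤ (Measure.pi fun _ : Fin k => mu Λ) (B e w) + (Measure.pi fun _ : Fin k => mu Λ) (B e (fun _ => 1)) :=
              measure_union_le _ _
          _ ≤ ENNReal.ofReal (ε / (2 * (PF.card + 1))) + ENNReal.ofReal (ε / (2 * (PF.card + 1))) :=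
              add_le_add (H N hN e hOke w hw) (H N hN e hOke _ (fun _ => by simp))
          _ = _ := by rw [← ENNReal.ofReal_add (by positivity) (by positivity)]; congr 1; ring
    _ = ENNReal.ofReal (PF.card * (2 * (ε / (2 * (PF.card + 1))))) := by
        rw [sum_const, nsmul_eq_mul, ENNReal.ofReal_mul (Nat.cast_nonneg PF.card), ENNReal.ofReal_natCast]
    _ ≤ ENNReal.ofReal ε := by
        apply ENNReal.ofReal_le_ofReal
        have : (PF.card : ℝ) * (2 * (ε / (2 * (PF.card + 1)))) = ε * (PF.card / (PF.card + 1)) := by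
          field_simp
        rw [this]
        apply mul_le_of_le_one_right hε.le
        rw [div_le_one (by positivity)]
        linarith

end Pool.Agent.H623.RD
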