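import Pool.Agent.H623.RD.G

/-! Real dilates, part H: how often the trajectories of `n` and of the integer parts of its dilates meet. -/

set_option autoImplicit false

namespace Pool.Agent.H623.RD

open MeasureTheory Finset Filter Topology
open Pool.Agent.H499R2.ND
open Pool.Agent.W41 Pool.Agent.W41.FU Pool.Agent.W41.MU
open Pool.Agent.H623 (TG.C TG.Cls TG.Invt TG.Cls_inv TG.inv_Td TG.Cls_self TG.Cls_eq TG.Cls_symm TG.Cls_sign TG.cls_pos)

theorem Td_C {x : ℤ} (h : ¬ x % 2 = 0) : 2 * Td 1 x = TG.C x := by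
  unfold Td TG.C
  rw [if_neg h, if_neg h]
  omega

theorem Td_C' {x : ℤ} (h : x % 2 = 0) : Td 1 x = TG.C x := by
  unfold Td TG.C
  rw [if_pos h, if_pos h]

theorem inv_C {M : Set ℤ} (hM : H499R2.ND.Inv 1 M) : TG.Invt M := by
  intro x
  by_cases h : x % 2 = 0
  · rw [← Td_C' h]; exact hM x
  · rw [← Td_C h, hM.two]; exact hM x

theorem inv_C_iter {M : Set ℤ} (hM : TG.Invt M) (k : ℕ) (x : ℤ) : x ∈ M ↔ TG.C^[k] x ∈ M := by
  induction k generalizing x with
  | zero => simp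
  | succ k ih => rw [hM x, ih, Function.iterate_succ_apply]

theorem Mg_eq (a : ℤ) : Mg (Td 1) a = TG.Cls a := by
  ext x
  constructor
  · intro h
    exact (inv_class (TG.inv_Td (TG.Cls_inv a)) h).2 (TG.Cls_self a)
  · rintro ⟨i, j, e⟩
    have h := inv_C (Mg_inv 1 a)
    rw [inv_C_iter h j, ← e, ← inv_C_iter h i]
    exact Mg_self _ _

/-- the classes of the side `s` -/
abbrev CL (s : ℤ) : Type := {A : Set ℤ // ∃ x : ℤ, 0 < s * x ∧ A = TG.Cls x}

theorem classes {s : ℤ} (hs : s = 1 ∨ s = -1) : ∃ D : Set ℤ → ℝ,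
    (∀ A : CL s, 0 < D A ∧ D A ≤ 1 ∧ HD s A (D A)) ∧ HasSum (fun A : CL s => D A) 1 := by
  classical
  obtain ⟨δc, h1, -, -, h4⟩ := structure_d (d := 1) odd_one (by norm_num) hs
  set D : Set ℤ → ℝ := fun A => if h : ∃ l, HD s A l then h.choose else 0 with hD
  have hDv : ∀ A l, HD s A l → D A = l := by
    intro A l h
    have hex : ∃ l, HD s A l := ⟨l, h⟩
    rw [hD]
    simp only [dif_pos hex]
    exact HD_unique hex.choose_spec h
  have hHD : ∀ x : ℤ, HD s (TG.Cls x) (δc x) := fun x => by rw [← Mg_eq]; exact (h1 x).2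
  refine ⟨D, ?_, ?_⟩
  · rintro ⟨A, x, hx, rfl⟩
    have h := hHD x
    show 0 < D (TG.Cls x) ∧ D (TG.Cls x) ≤ 1 ∧ HD s (TG.Cls x) (D (TG.Cls x))
    rw [hDv _ _ h]
    exact ⟨TG.cls_pos hs hx h, (HD_mem hs h).2, h⟩
  · set f : {a : ℤ // IsRp 1 s a} → CL s := fun a => ⟨TG.Cls a, a, a.2.1, rfl⟩ with hf
    have hbij : Function.Bijective f := by
      constructor
      · intro a b hab
        have h : TG.Cls (a : ℤ) = TG.Cls (b : ℤ) := congrArg Subtype.val hab
        apply Subtype.ext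
        apply rep_unique hs a.2 b.2
        rw [Mg_eq, ← h]
        exact TG.Cls_self _
      · rintro ⟨A, x, hx, rfl⟩
        obtain ⟨b, hb, hbx, -⟩ := exists_rep (d := 1) hs hx
        refine ⟨⟨b, hb⟩, ?_⟩
        apply Subtype.ext
        show TG.Cls b = TG.Cls x
        rw [Mg_eq] at hbx
        exact TG.Cls_eq hbx
    rw [← (Equiv.ofBijective f hbij).hasSum_iff]
    have e : (fun A : CL s => D A) ∘ (Equiv.ofBijective f hbij) = fun a : {a : ℤ // IsRp 1 s a} => δc a := by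
      ext a
      show D (TG.Cls (a : ℤ)) = δc a
      exact hDv _ _ (hHD a)
    rw [e]
    exact h4

theorem cF_ind (s : ℤ) (S : Set ℤ) (N : ℕ) : (cF s S N : ℝ) = ∑ n ∈ Icc 1 N, ind s S (n : ℕ) := by
  classical
  unfold cF ind
  rw [card_filter]
  push_cast
  apply sum_congr rfl
  intro n _
  congr

open Classical in
/-- `1` if the integer parts of all the dilates of `n` lie in the class of `n` -/
noncomputable def mt {k : ℕ} (s : ℤ) (x : Fin k → ℝ) (n : ℕ) : ℝ :=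
  if ∀ i, s * ⌊x i * n⌋ ∈ TG.Cls (s * n) then 1 else 0

theorem mt_bd {k : ℕ} {s : ℤ} (x : Fin k → ℝ) (F : Finset (CL s)) (n : ℕ) :
    ∑ A ∈ F, ind s A (n : ℕ) * ∏ i, ind s A ⌊x i * n⌋ ≤ mt s x n ∧
    mt s x n ≤ ∑ A ∈ F, ind s A (n : ℕ) * ∏ i, ind s A ⌊x i * n⌋ + (1 - ∑ A ∈ F, ind s A (n : ℕ)) := by
  classical
  have hm0 : 0 ≤ mt s x n := by unfold mt; split_ifs <;> norm_num
  have hm1 : mt s x n ≤ 1 := by unfold mt; split_ifs <;> norm_num
  by_cases h : ∃ A ∈ F, s * (n : ℤ) ∈ (A : Set ℤ)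
  · obtain ⟨A, hA, hn⟩ := h
    have hAcls : (A : Set ℤ) = TG.Cls (s * n) := by
      obtain ⟨y, hy, e⟩ := A.2
      rw [e]
      rw [e] at hn
      exact (TG.Cls_eq hn).symm
    have hother : ∀ B ∈ F, B ≠ A → ind s B (n : ℕ) = 0 := by
      intro B _ hBA
      unfold ind
      rw [if_neg]
      intro hnB
      apply hBA
      apply Subtype.ext
      rw [hAcls]
      obtain ⟨y, hy, e⟩ := B.2
      rw [e]
      rw [e] at hnB
      exact (TG.Cls_eq hnB).symm
    have hself : ind s A (n : ℕ) = 1 := by unfold ind; rw [if_pos hn]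
    have e1 : ∑ B ∈ F, ind s B (n : ℕ) * ∏ i, ind s B ⌊x i * n⌋ = ∏ i, ind s A ⌊x i * n⌋ := by
      rw [sum_eq_single A]
      · rw [hself, one_mul]
      · intro B hB hBA
        rw [hother B hB hBA, zero_mul]
      · intro h; exact absurd hA h
    have e2 : ∑ B ∈ F, ind s B (n : ℕ) = 1 := by
      rw [sum_eq_single A]
      · exact hself
      · intro B hB hBA
        exact hother B hB hBA
      · intro h; exact absurd hA h
    have e3 : ∏ i, ind s A ⌊x i * n⌋ = mt s x n := by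
      unfold mt
      by_cases hall : ∀ i, s * ⌊x i * n⌋ ∈ TG.Cls (s * n)
      · rw [if_pos hall]
        apply prod_eq_one
        intro i _
        unfold ind
        rw [if_pos]
        rw [hAcls]
        exact hall i
      · rw [if_neg hall]
        push Not at hall
        obtain ⟨i, hi⟩ := hall
        apply prod_eq_zero (mem_univ i)
        unfold ind
        rw [if_neg]
        rw [hAcls]
        exact hi
    rw [e1, e2, e3]
    constructor <;> linarith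
  · push Not at h
    have h0 : ∀ A ∈ F, ind s A (n : ℕ) = 0 := by
      intro A hA
      unfold ind
      rw [if_neg (h A hA)]
    have e1 : ∑ B ∈ F, ind s B (n : ℕ) * ∏ i, ind s B ⌊x i * n⌋ = 0 := by
      apply sum_eq_zero
      intro B hB
      rw [h0 B hB, zero_mul]
    have e2 : ∑ B ∈ F, ind s B (n : ℕ) = 0 := sum_eq_zero h0
    rw [e1, e2]
    constructor <;> linarith

/-- THE MEETING PROPORTION -/
theorem meet {s : ℤ} (hs : s = 1 ∨ s = -1) {D : Set ℤ → ℝ} (hD : ∀ A : CL s, 0 < D A ∧ D A ≤ 1 ∧ HD s A (D A))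
    (hD1 : HasSum (fun A : CL s => D A) 1) (k : ℕ) : ∃ ρ : ℝ, 0 < ρ ∧ ρ ≤ 1 ∧
    HasSum (fun A : CL s => D A ^ (k + 1)) ρ ∧
    ∀ Λ : ℝ, 1 < Λ → ∀ ε : ℝ, 0 < ε → ∃ N0 : ℕ, 1 ≤ N0 ∧ ∀ N : ℕ, N0 ≤ N →
      (Measure.pi fun _ : Fin k => mu Λ) {x | ε * N < |∑ n ∈ Icc 1 N, mt s x n - ρ * N|} ≤ ENNReal.ofReal ε := by
  classical
  have hpow : ∀ A : CL s, D A ^ (k + 1) ≤ D A := fun A => by
    have := pow_le_pow_of_le_one (hD A).1.le (hD A).2.1 (Nat.succ_le_succ (Nat.zero_le k))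
    rwa [pow_one] at this
  have hsm : Summable (fun A : CL s => D A ^ (k + 1)) :=
    Summable.of_nonneg_of_le (fun A => by have := (hD A).1; positivity) hpow hD1.summable
  obtain ⟨ρ, hρ⟩ := hsm
  have hρ1 : ρ ≤ 1 := hasSum_le hpow hρ hD1
  have hρ0 : 0 < ρ := by
    have hx : 0 < s * s := by rcases hs with rfl | rfl <;> norm_num
    set A0 : CL s := ⟨TG.Cls s, s, hx, rfl⟩
    have h1 := sum_le_hasSum {A0} (fun A _ => by have := (hD A).1; positivity) hρ
    rw [sum_singleton] at h1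
    have h2 := (hD A0).1
    have : 0 < D A0 ^ (k + 1) := by positivity
    linarith
  refine ⟨ρ, hρ0, hρ1, hρ, fun Λ hΛ ε hε => ?_⟩
  obtain ⟨F, hF⟩ : ∃ F : Finset (CL s), 1 - ε / 4 < ∑ A ∈ F, D A :=
    (hD1.eventually (lt_mem_nhds (show 1 - ε / 4 < 1 by linarith))).exists
  have hρF : ρ - ε / 4 ≤ ∑ A ∈ F, D A ^ (k + 1) := by
    have h1 := hD1.sub hρ
    have h2 := sum_le_hasSum F (fun A _ => sub_nonneg.2 (hpow A)) h1
    rw [sum_sub_distrib] at h2
    linarith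
  have hρF' : ∑ A ∈ F, D A ^ (k + 1) ≤ ρ := sum_le_hasSum F (fun A _ => by have := (hD A).1; positivity) hρ
  set ε1 : ℝ := ε / (16 * (F.card + 1)) with hε1
  have hε10 : 0 < ε1 := by positivity
  have hε1F : F.card * ε1 ≤ ε / 16 := by
    rw [hε1, mul_div_assoc', div_le_div_iff₀ (by positivity) (by norm_num)]
    nlinarith [hε]
  obtain ⟨N1, hN1, H1⟩ := all_sets hΛ k hε10
  obtain ⟨N2, H2⟩ := unif hs hε10
  refine ⟨max N1 N2, hN1.trans (le_max_left _ _), fun N hN => ?_⟩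
  have hNR : (0 : ℝ) < N := by
    have : 1 ≤ N := hN1.trans ((le_max_left _ _).trans hN)
    exact_mod_cast this
  set w : CL s → ℕ → ℂ := fun A n => (ind s A (n : ℕ) : ℂ) with hw
  have hw1 : ∀ A n, ‖w A n‖ ≤ 1 := by
    intro A n
    rw [hw, Complex.norm_real, Real.norm_eq_abs, abs_of_nonneg (ind_nonneg _ _ _)]
    exact ind_le_one _ _ _
  have hsub : {x : Fin k → ℝ | ε * N < |∑ n ∈ Icc 1 N, mt s x n - ρ * N|}
      ⊆ ⋃ A ∈ F, {x | ∃ e : Fin k → Dt, (∀ i, Ok (e i)) ∧ ε1 * N < ‖DD e (w A) N x‖} := by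
    intro x hx
    by_contra hnot
    have hgood : ∀ A ∈ F, |∑ n ∈ Icc 1 N, ind s A (n : ℕ) * ∏ i, ind s A ⌊x i * n⌋ - D A ^ (k + 1) * N| ≤ 2 * ε1 * N := by
      intro A hA
      have h1 : ‖DD (fun _ : Fin k => ((s, (A : Set ℤ), D A) : Dt)) (w A) N x‖ ≤ ε1 * N := by
        by_contra h
        have hinv : H499R2.ND.Inv 1 (A : Set ℤ) := by
          obtain ⟨y, hy, e⟩ := A.2
          rw [e]
          exact TG.inv_Td (TG.Cls_inv y)
        have hmem : x ∈ {x | ∃ e : Fin k → Dt, (∀ i, Ok (e i)) ∧ ε1 * N < ‖DD e (w A) N x‖} :=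
          ⟨fun _ => ((s, (A : Set ℤ), D A) : Dt), fun _ => ⟨hs, hinv, (hD A).2.2⟩, not_le.1 h⟩
        exact hnot (Set.mem_iUnion₂.2 ⟨A, hA, hmem⟩)
      have h2 : DD (fun _ : Fin k => ((s, (A : Set ℤ), D A) : Dt)) (w A) N x
          = ((∑ n ∈ Icc 1 N, ind s A (n : ℕ) * ∏ i, ind s A ⌊x i * n⌋ - D A ^ k * cF s A N : ℝ) : ℂ) := by
        unfold DD
        rw [cF_ind]
        simp only [prod_const, card_univ, Fintype.card_fin]
        push_cast
        rw [mul_sum, ← sum_sub_distrib]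
        apply sum_congr rfl
        intro n _
        rw [hw]
        push_cast
        ring
      rw [h2, Complex.norm_real, Real.norm_eq_abs] at h1
      have hinv : H499R2.ND.Inv 1 (A : Set ℤ) := by
        obtain ⟨y, hy, e⟩ := A.2
        rw [e]
        exact TG.inv_Td (TG.Cls_inv y)
      have h3 := H2 A hinv (D A) (hD A).2.2 N ((le_max_right _ _).trans hN)
      have h4 : |D A ^ k * cF s A N - D A ^ (k + 1) * N| ≤ ε1 * N := by
        have e : D A ^ k * cF s A N - D A ^ (k + 1) * N = D A ^ k * (cF s A N - D A * N) := by ring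
        rw [e, abs_mul, abs_of_nonneg (pow_nonneg (hD A).1.le _)]
        exact (mul_le_of_le_one_left (abs_nonneg _) (pow_le_one₀ (hD A).1.le (hD A).2.1)).trans h3
      have h5 := abs_add_le (∑ n ∈ Icc 1 N, ind s A (n : ℕ) * ∏ i, ind s A ⌊x i * n⌋ - D A ^ k * cF s A N)
        (D A ^ k * cF s A N - D A ^ (k + 1) * N)
      rw [sub_add_sub_cancel] at h5
      linarith
    have hmass : ∀ A ∈ F, D A * N - ε1 * N ≤ ∑ n ∈ Icc 1 N, ind s A (n : ℕ) := by
      intro A _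
      have hinv : H499R2.ND.Inv 1 (A : Set ℤ) := by
        obtain ⟨y, hy, e⟩ := A.2
        rw [e]
        exact TG.inv_Td (TG.Cls_inv y)
      have h3 := (abs_le.1 (H2 A hinv (D A) (hD A).2.2 N ((le_max_right _ _).trans hN))).1
      rw [← cF_ind]
      linarith
    set P : ℝ := ∑ A ∈ F, ∑ n ∈ Icc 1 N, ind s A (n : ℕ) * ∏ i, ind s A ⌊x i * n⌋ with hP
    set Q : ℝ := ∑ A ∈ F, ∑ n ∈ Icc 1 N, ind s A (n : ℕ) with hQ
    have hPc : P = ∑ n ∈ Icc 1 N, ∑ A ∈ F, ind s A (n : ℕ) * ∏ i, ind s A ⌊x i * n⌋ := sum_comm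
    have hQc : Q = ∑ n ∈ Icc 1 N, ∑ A ∈ F, ind s A (n : ℕ) := sum_comm
    have h1 : P ≤ ∑ n ∈ Icc 1 N, mt s x n := by
      rw [hPc]
      exact sum_le_sum fun n _ => (mt_bd x F n).1
    have h2 : ∑ n ∈ Icc 1 N, mt s x n ≤ P + (N - Q) := by
      rw [hPc, hQc]
      calc ∑ n ∈ Icc 1 N, mt s x n ≤ ∑ n ∈ Icc 1 N, (∑ A ∈ F, ind s A (n : ℕ) * ∏ i, ind s A ⌊x i * n⌋
            + (1 - ∑ A ∈ F, ind s A (n : ℕ))) := sum_le_sum fun n _ => (mt_bd x F n).2
        _ = _ := by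
          rw [sum_add_distrib, sum_sub_distrib, sum_const, Nat.card_Icc, Nat.add_sub_cancel, nsmul_eq_mul, mul_one]
    have h3 : |P - (∑ A ∈ F, D A ^ (k + 1)) * N| ≤ F.card * (2 * ε1 * N) := by
      rw [hP, sum_mul, ← sum_sub_distrib]
      refine (abs_sum_le_sum_abs _ _).trans ?_
      calc _ ≤ ∑ _A ∈ F, 2 * ε1 * N := sum_le_sum hgood
        _ = F.card * (2 * ε1 * N) := by rw [sum_const, nsmul_eq_mul]
    have h4 : (∑ A ∈ F, D A) * N - F.card * (ε1 * N) ≤ Q := by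
      calc (∑ A ∈ F, D A) * N - F.card * (ε1 * N) = ∑ A ∈ F, (D A * N - ε1 * N) := by
            rw [sum_sub_distrib, sum_mul, sum_const, nsmul_eq_mul]
        _ ≤ Q := sum_le_sum hmass
    have h3' := abs_le.1 h3
    have k1 : F.card * (2 * ε1 * N) ≤ ε / 8 * N := by
      calc F.card * (2 * ε1 * N) = 2 * (F.card * ε1) * N := by ring
        _ ≤ 2 * (ε / 16) * N := by gcongr
        _ = ε / 8 * N := by ring
    have k2 : F.card * (ε1 * N) ≤ ε / 16 * N := by
      calc F.card * (ε1 * N) = (F.card * ε1) * N := by ring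
        _ ≤ (ε / 16) * N := by gcongr
    have k3 : (1 - ε / 4) * N ≤ (∑ A ∈ F, D A) * N := mul_le_mul_of_nonneg_right hF.le hNR.le
    have k4 : (ρ - ε / 4) * N ≤ (∑ A ∈ F, D A ^ (k + 1)) * N := mul_le_mul_of_nonneg_right hρF hNR.le
    have k5 : (∑ A ∈ F, D A ^ (k + 1)) * N ≤ ρ * N := mul_le_mul_of_nonneg_right hρF' hNR.le
    have hεN : 0 < ε * N := by positivity
    have hx' : ε * N < |∑ n ∈ Icc 1 N, mt s x n - ρ * N| := hx
    have : |∑ n ∈ Icc 1 N, mt s x n - ρ * N| ≤ ε * N := by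
      rw [abs_le]
      constructor <;> linarith [h3'.1, h3'.2]
    linarith
  calc (Measure.pi fun _ : Fin k => mu Λ) {x | ε * N < |∑ n ∈ Icc 1 N, mt s x n - ρ * N|}
      ≤ (Measure.pi fun _ : Fin k => mu Λ) (⋃ A ∈ F, {x | ∃ e : Fin k → Dt, (∀ i, Ok (e i)) ∧ ε1 * N < ‖DD e (w A) N x‖}) :=
        measure_mono hsub
    _ ≤ ∑ A ∈ F, (Measure.pi fun _ : Fin k => mu Λ) {x | ∃ e : Fin k → Dt, (∀ i, Ok (e i)) ∧ ε1 * N < ‖DD e (w A) N x‖} :=
        measure_biUnion_finset_le _ _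
    _ ≤ ∑ _A ∈ F, ENNReal.ofReal ε1 := sum_le_sum fun A _ => H1 N ((le_max_left _ _).trans hN) (w A) (hw1 A)
    _ = ENNReal.ofReal (F.card * ε1) := by
        rw [sum_const, nsmul_eq_mul, ENNReal.ofReal_mul (Nat.cast_nonneg F.card), ENNReal.ofReal_natCast]
    _ ≤ ENNReal.ofReal ε := ENNReal.ofReal_le_ofReal (by linarith)

/-- `ρ = 1` only if there is only one class -/
theorem rho_one {s : ℤ} {D : Set ℤ → ℝ} (hD : ∀ A : CL s, 0 < D A ∧ D A ≤ 1 ∧ HD s A (D A))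
    (hD1 : HasSum (fun A : CL s => D A) 1) {k : ℕ} (hk : 1 ≤ k)
    (h : HasSum (fun A : CL s => D A ^ (k + 1)) 1) (A B : CL s) : A = B := by
  classical
  have h1 := hD1.sub h
  rw [sub_self] at h1
  have hnn : ∀ A : CL s, 0 ≤ D A - D A ^ (k + 1) := fun A => by
    have h2 : D A ^ (k + 1) ≤ D A ^ 1 := pow_le_pow_of_le_one (hD A).1.le (hD A).2.1 (Nat.succ_le_succ (Nat.zero_le k))
    rw [pow_one] at h2
    exact sub_nonneg.2 h2
  have hz : ∀ A : CL s, D A - D A ^ (k + 1) = 0 := fun A => congrFun ((hasSum_zero_iff_of_nonneg hnn).1 h1) A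
  have hone : ∀ A : CL s, D A = 1 := by
    intro A
    by_contra hne
    have hlt : D A < 1 := lt_of_le_of_ne (hD A).2.1 hne
    have h2 := hz A
    have h3 : D A ^ (k + 1) < D A := by
      calc D A ^ (k + 1) = D A ^ k * D A := pow_succ _ _
        _ < 1 * D A := mul_lt_mul_of_pos_right (pow_lt_one₀ (hD A).1.le hlt (by omega)) (hD A).1
        _ = D A := one_mul _
    linarith
  by_contra hne
  have h2 := sum_le_hasSum {A, B} (fun C _ => (hD C).1.le) hD1
  rw [sum_pair hne, hone A, hone B] at h2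
  norm_num at h2

end Pool.Agent.H623.RD
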